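import Pool.Agent.Helper75.QC.Main
import Pool.Agent.Helper40.SD.Gen

/-! Project TC (MP_1fe969_ag, TwoCurves): Frobenius is semisimple on the second cohomology of every
cyclic cover of the plane branched along a curve of degree `≤ 5` with at most two components.

`val f x y` is the value of a polynomial, `Over q f`: the coefficients of `f` are in the field with
`q` elements, `Cover`: the field `K = Ω(x, y, w)` with its relative Frobenius. -/

set_option autoImplicit false

namespace Pool.Agent.Helper75.TC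

open IntermediateField Pool.Agent.Helper75.QC

/-- the value of a polynomial in two variables -/
noncomputable def val {Ω K : Type} [Field Ω] [Field K] [Algebra Ω K]
    (f : MvPolynomial (Fin 2) Ω) (x y : K) : K := MvPolynomial.aeval ![x, y] f

/-- the coefficients are in the field with `q` elements -/
def Over {Ω : Type} [Field Ω] (q : ℕ) (f : MvPolynomial (Fin 2) Ω) : Prop :=
  ∀ d, f.coeff d ^ q = f.coeff d

/-- `K = Ω(x, y, w)` has degree `n` over `Ω(x, y)`, and `φ` raises `x, y, w` to the power `q` -/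
structure Cover {Ω K : Type} [Field Ω] [Field K] [Algebra Ω K] (q n : ℕ) (x y w : K)
    (φ : K →ₐ[Ω] K) : Prop where
  gen : adjoin Ω {x, y, w} = ⊤
  deg : Module.finrank (adjoin Ω {x, y}) K = n
  frx : φ x = x ^ q
  fry : φ y = y ^ q
  frw : φ w = w ^ q

theorem val_mem {Ω K : Type} [Field Ω] [Field K] [Algebra Ω K] (f : MvPolynomial (Fin 2) Ω)
    (M : IntermediateField Ω K) {x y : K} (hx : x ∈ M) (hy : y ∈ M) : val f x y ∈ M := by
  have h1 := aeval_mem75 x y f
  have h2 : adjoin Ω {x, y} ≤ M := by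
    rw [adjoin_le_iff]
    intro s hs
    simp only [Set.mem_insert_iff, Set.mem_singleton_iff] at hs
    rcases hs with rfl | rfl <;> assumption
  exact h2 h1

theorem map_val {Ω : Type} [Field Ω] {K K' : Type} [Field K] [Algebra Ω K] [Field K']
    [Algebra Ω K'] (h : K →ₐ[Ω] K') (x y : K) (g : MvPolynomial (Fin 2) Ω) :
    h (val g x y) = val g (h x) (h y) :=
  map_aeval75 h x y g

/-- the relative Frobenius and the values of polynomials over the field with `q` elements -/
theorem frob_val {p e : ℕ} [Fact p.Prime] {Ω K : Type} [Field Ω] [CharP Ω p] [Field K]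
    [Algebra Ω K] (φ : K →ₐ[Ω] K) {x y : K} (hx : φ x = x ^ p ^ e) (hy : φ y = y ^ p ^ e)
    {f : MvPolynomial (Fin 2) Ω} (hf : Over (p ^ e) f) : φ (val f x y) = val f x y ^ p ^ e := by
  have hK : CharP K p := charP_of_injective_algebraMap (algebraMap Ω K).injective p
  rw [map_val, hx, hy]
  unfold val
  rw [MvPolynomial.aeval_def, MvPolynomial.aeval_def, MvPolynomial.eval₂_eq',
    MvPolynomial.eval₂_eq', sum_pow_char_pow]
  refine Finset.sum_congr rfl fun d _ => ?_
  rw [mul_pow, ← map_pow, hf d, ← Finset.prod_pow]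
  congr 1
  refine Finset.prod_congr rfl fun i _ => ?_
  fin_cases i
  · show (x ^ p ^ e) ^ d 0 = (x ^ d 0) ^ p ^ e
    rw [← pow_mul, ← pow_mul, mul_comm]
  · show (y ^ p ^ e) ^ d 1 = (y ^ d 1) ^ p ^ e
    rw [← pow_mul, ← pow_mul, mul_comm]

theorem semisimple_of_uniruled {p : ℕ} {Ω L : Type} [Field Ω] [Field L] (T : Theory p Ω L)
    {K : Type} [Field K] [Algebra Ω K] (hK : Uniruled Ω K 2) (φ : K →ₐ[Ω] K) :
    Module.End.IsSemisimple (T.map 2 φ) := by
  have h1 : T.map 2 φ = 0 := by
    ext v
    rw [T.uniruled 2 K hK v, map_zero, map_zero]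
  rw [h1]
  exact Module.End.isSemisimple_zero

/-- `adjoin Ω {x, y, w} = ⊤` and the field is uniruled -/
theorem uniruled_of_gen {Ω K : Type} [Field Ω] [Field K] [Algebra Ω K] {x y w : K} {i : ℕ}
    (hK : adjoin Ω {x, y, w} = ⊤)
    (h : Uniruled Ω (adjoin Ω {x, y, w} : IntermediateField Ω K) i) : Uniruled Ω K i := by
  rw [hK] at h
  exact Pool.Agent.Helper40.SD.uniruled_of_hom
    (IntermediateField.topEquiv (F := Ω) (E := K)).symm.toAlgHom h

/-- from the algebraically closed field `AF Ω {τ}` to `Ω` -/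
theorem up {Ω E : Type} [Field Ω] [Field E] [Algebra Ω E] (τ : E) (S : Set E) (θ x : E)
    (hx : x ∈ adjoin (AF Ω {τ}) (Acl (AF Ω {τ}) S ∪ {θ})) :
    x ∈ adjoin Ω (Acl Ω ({τ} ∪ S) ∪ {θ}) := by
  have hτ : AF Ω {τ} ≤ AF Ω ({τ} ∪ S) := AF_mono (by simp)
  have h1 : ∀ a ∈ Acl (AF Ω {τ}) S, a ∈ Acl Ω ({τ} ∪ S) := by
    intro a ha
    rw [← mem_AF]
    apply AF_closed
    have h2 : IsAlgebraic (adjoin (AF Ω {τ}) S) a := ha
    -- the field generated by `S` over `AF Ω {τ}` is contained in `AF Ω ({τ} ∪ S)`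
    have h3 : ∀ b ∈ adjoin (AF Ω {τ}) S, b ∈ AF Ω ({τ} ∪ S) := by
      intro b hb
      induction hb using adjoin_induction with
      | mem b hb => exact subset_AF _ (Or.inr hb)
      | algebraMap c => exact hτ c.2
      | add b c _ _ hb hc => exact add_mem hb hc
      | inv b _ hb => exact inv_mem hb
      | mul b c _ _ hb hc => exact mul_mem hb hc
    obtain ⟨P, hP0, hP⟩ := h2
    let i : adjoin (AF Ω {τ}) S →+* AF Ω ({τ} ∪ S) :=
      { toFun := fun b => ⟨b, h3 b b.2⟩
        map_one' := rfl
        map_mul' := fun _ _ => rfl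
        map_zero' := rfl
        map_add' := fun _ _ => rfl }
    refine ⟨P.map i, ?_, ?_⟩
    · rw [Ne, Polynomial.map_eq_zero]
      exact hP0
    · rw [Polynomial.aeval_def, Polynomial.eval₂_map]
      rw [Polynomial.aeval_def] at hP
      exact hP
  induction hx using adjoin_induction with
  | mem b hb =>
    rcases hb with hb | hb
    · exact subset_adjoin _ _ (Or.inl (h1 b hb))
    · exact subset_adjoin _ _ (Or.inr hb)
  | algebraMap c =>
    apply subset_adjoin
    left
    rw [← mem_AF]
    exact hτ c.2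
  | add b c _ _ hb hc => exact add_mem hb hc
  | inv b _ hb => exact inv_mem hb
  | mul b c _ _ hb hc => exact mul_mem hb hc

end Pool.Agent.Helper75.TC
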