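import Pool.Agent.Helper75.TC.Data

/-! Block TC-1. A conic over an algebraically closed field has a rational parametrization (all
characteristics).

`conic_param`: `M = AF Ω S` is algebraically closed. If `x ∈ M`: `θ = y`. Otherwise: the polynomial
`G` is not a constant (it is not zero and vanishes at `(x, y)`), so it has a zero `(x0, y0)` in `M^2`
(choose a value of one variable for which it is still a non constant polynomial in the other one;
`M` is infinite). `t = x - x0`, `θ = (y - y0) / t`: `G(x0 + t, y0 + θ t) = t (A(θ) + t B(θ))` with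
`A` of degree `≤ 1` and `B` of degree `≤ 2` over `M`. If `B(θ) ≠ 0` then `t = - A(θ) / B(θ)`. If
`B(θ) = 0` then `A(θ) = 0`, so `θ ∈ M` (`A`, `B` are not both zero), take `θ' = t`.
`uni_pencil`: if `w` is algebraic over `Ω` it is in `Ω` and `K0 = Ω(x, y)`, `S = {x}`, `θ = y`
(`uni_plane75`). Otherwise in `E = AlgebraicClosure K`, `S = {w}`, `G = w^n g - f` (`≠ 0` since `w`
is transcendental and `g ≠ 0`). -/

set_option autoImplicit false

namespace Pool.Agent.Helper75.TC

open IntermediateField Pool.Agent.Helper75.QC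

private noncomputable def mon34 (q : ℕ × ℕ) : Fin 2 →₀ ℕ :=
  Finsupp.single 0 q.1 + Finsupp.single 1 q.2

private theorem mon34_zero (q : ℕ × ℕ) : mon34 q 0 = q.1 := by
  unfold mon34
  rw [Finsupp.add_apply, Finsupp.single_eq_same, Finsupp.single_eq_of_ne (by decide), add_zero]

private theorem mon34_one (q : ℕ × ℕ) : mon34 q 1 = q.2 := by
  unfold mon34
  rw [Finsupp.add_apply, Finsupp.single_eq_same, Finsupp.single_eq_of_ne (by decide), zero_add]

private theorem mon34_eq (d : Fin 2 →₀ ℕ) : mon34 (d 0, d 1) = d := by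
  ext i
  fin_cases i
  · exact mon34_zero _
  · exact mon34_one _

private theorem mon34_inj : Function.Injective mon34 := by
  intro q q' h
  have h0 := mon34_zero q
  have h1 := mon34_one q
  rw [h, mon34_zero] at h0
  rw [h, mon34_one] at h1
  exact Prod.ext h0.symm h1.symm

private theorem supp34 {M : Type} [Field M] {F : MvPolynomial (Fin 2) M} (hF : F.totalDegree ≤ 2)
    {d : Fin 2 →₀ ℕ} (hd : d ∈ F.support) : d 0 + d 1 ≤ 2 := by
  have h := MvPolynomial.le_totalDegree hd
  rw [Finsupp.sum_fintype _ _ (fun _ => rfl), Fin.sum_univ_two] at h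
  omega

private theorem expand34 {M E : Type} [Field M] [Field E] [Algebra M E]
    (F : MvPolynomial (Fin 2) M) (hF : F.totalDegree ≤ 2) (x y : E) :
    MvPolynomial.aeval ![x, y] F = ∑ q ∈ Finset.range 3 ×ˢ Finset.range 3,
      algebraMap M E (F.coeff (mon34 q)) * (x ^ q.1 * y ^ q.2) := by
  classical
  rw [MvPolynomial.aeval_def, MvPolynomial.eval₂_eq']
  have h1 : ∀ q : ℕ × ℕ, algebraMap M E (F.coeff (mon34 q)) * (x ^ q.1 * y ^ q.2) =
      algebraMap M E (F.coeff (mon34 q)) * ∏ i : Fin 2, (![x, y] : Fin 2 → E) i ^ (mon34 q) i := by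
    intro q
    rw [Fin.prod_univ_two, mon34_zero, mon34_one]
    rfl
  simp only [h1]
  rw [← Finset.sum_image (f := fun d => algebraMap M E (F.coeff d) *
    ∏ i : Fin 2, (![x, y] : Fin 2 → E) i ^ d i) (fun a _ b _ h => mon34_inj h)]
  apply Finset.sum_subset
  · intro d hd
    have h2 := supp34 hF hd
    rw [Finset.mem_image]
    refine ⟨(d 0, d 1), ?_, mon34_eq d⟩
    rw [Finset.mem_product, Finset.mem_range, Finset.mem_range]
    constructor <;> simp only <;> omega
  · intro d _ hd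
    rw [MvPolynomial.notMem_support_iff.1 hd, map_zero, zero_mul]

private theorem zero34 {M : Type} [Field M] {F : MvPolynomial (Fin 2) M} (hF : F.totalDegree ≤ 2)
    (h : ∀ q : ℕ × ℕ, q.1 + q.2 ≤ 2 → F.coeff (mon34 q) = 0) : F = 0 := by
  ext d
  rw [MvPolynomial.coeff_zero]
  by_cases hd : d ∈ F.support
  · have h1 := h (d 0, d 1) (supp34 hF hd)
    rwa [mon34_eq] at h1
  · exact MvPolynomial.notMem_support_iff.1 hd

private theorem big34 {M : Type} [Field M] {F : MvPolynomial (Fin 2) M} (hF : F.totalDegree ≤ 2)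
    {q : ℕ × ℕ} (hq : 2 < q.1 + q.2) : F.coeff (mon34 q) = 0 := by
  by_contra h
  have h1 := supp34 hF (MvPolynomial.mem_support_iff.2 h)
  rw [mon34_zero, mon34_one] at h1
  omega

/-- roots of quadratic equations -/
private theorem quad34 {Ω E : Type} [Field Ω] [Field E] [Algebra Ω E] {S : Set E}
    (α β γ : AF Ω S) {r : E} (h : (α : E) + β * r + γ * r ^ 2 = 0)
    (h0 : ¬ (α = 0 ∧ β = 0 ∧ γ = 0)) : r ∈ AF Ω S := by
  apply AF_closed
  refine ⟨Polynomial.C α + Polynomial.C β * Polynomial.X + Polynomial.C γ * Polynomial.X ^ 2,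
    ?_, ?_⟩
  · intro hP
    apply h0
    have c0 := congrArg (fun P => Polynomial.coeff P 0) hP
    have c1 := congrArg (fun P => Polynomial.coeff P 1) hP
    have c2 := congrArg (fun P => Polynomial.coeff P 2) hP
    simp [Polynomial.coeff_X, Polynomial.coeff_C, Polynomial.coeff_X_pow] at c0 c1 c2
    exact ⟨c0, c1, c2⟩
  · rw [map_add, map_add, map_mul, map_mul, map_pow, Polynomial.aeval_X, Polynomial.aeval_C,
      Polynomial.aeval_C, Polynomial.aeval_C]
    exact h

private theorem root34 {Ω E : Type} [Field Ω] [Field E] [Algebra Ω E] [IsAlgClosed E] {S : Set E}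
    (α β γ : AF Ω S) (hγ : γ ≠ 0) : ∃ r : AF Ω S, (α : E) + β * r + γ * (r : E) ^ 2 = 0 := by
  have hγ' : (γ : E) ≠ 0 := fun h => hγ (Subtype.ext h)
  have hdeg : (Polynomial.C (γ : E) * Polynomial.X ^ 2 + Polynomial.C (β : E) * Polynomial.X +
      Polynomial.C (α : E)).degree ≠ 0 := by
    rw [Polynomial.degree_quadratic hγ']
    decide
  obtain ⟨r, hr⟩ := IsAlgClosed.exists_root _ hdeg
  have hr' : (α : E) + β * r + γ * r ^ 2 = 0 := by
    rw [Polynomial.IsRoot.def] at hr
    simp only [Polynomial.eval_add, Polynomial.eval_mul, Polynomial.eval_C, Polynomial.eval_pow,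
      Polynomial.eval_X] at hr
    rw [← hr]
    ring
  exact ⟨⟨r, quad34 α β γ hr' fun h => hγ h.2.2⟩, hr'⟩

theorem conic_param {Ω E : Type} [Field Ω] [Field E] [Algebra Ω E] [IsAlgClosed E] (S : Set E)
    (G : MvPolynomial (Fin 2) (AF Ω S)) (hG : G ≠ 0) (hdeg : G.totalDegree ≤ 2) (x y : E)
    (h : MvPolynomial.aeval ![x, y] G = 0) :
    ∃ θ : E, x ∈ adjoin Ω (Acl Ω S ∪ {θ}) ∧ y ∈ adjoin Ω (Acl Ω S ∪ {θ}) := by
  obtain ⟨a, ha⟩ : ∃ a : AF Ω S, a = G.coeff (mon34 (2, 0)) := ⟨_, rfl⟩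
  obtain ⟨b, hb⟩ : ∃ a : AF Ω S, a = G.coeff (mon34 (1, 1)) := ⟨_, rfl⟩
  obtain ⟨c, hc⟩ : ∃ a : AF Ω S, a = G.coeff (mon34 (0, 2)) := ⟨_, rfl⟩
  obtain ⟨d, hd⟩ : ∃ a : AF Ω S, a = G.coeff (mon34 (1, 0)) := ⟨_, rfl⟩
  obtain ⟨e, he⟩ : ∃ a : AF Ω S, a = G.coeff (mon34 (0, 1)) := ⟨_, rfl⟩
  obtain ⟨f, hf⟩ : ∃ a : AF Ω S, a = G.coeff (mon34 (0, 0)) := ⟨_, rfl⟩
  have hne : ¬ (a = 0 ∧ b = 0 ∧ c = 0 ∧ d = 0 ∧ e = 0 ∧ f = 0) := by
    rintro ⟨h1, h2, h3, h4, h5, h6⟩
    apply hG
    apply zero34 hdeg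
    rintro ⟨i, j⟩ hij
    simp only at hij
    have hi : i ≤ 2 := by omega
    have hj : j ≤ 2 := by omega
    interval_cases i <;> interval_cases j <;> first | omega | (simp only [← ha, ← hb, ← hc, ← hd, ← he, ← hf]; assumption)
  have hxy : (a : E) * x ^ 2 + b * (x * y) + c * y ^ 2 + d * x + e * y + f = 0 := by
    rw [expand34 G hdeg, Finset.sum_product] at h
    simp only [Finset.sum_range_succ, Finset.sum_range_zero] at h
    rw [big34 hdeg (q := (1, 2)) (by norm_num), big34 hdeg (q := (2, 1)) (by norm_num),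
      big34 hdeg (q := (2, 2)) (by norm_num), ← ha, ← hb, ← hc, ← hd, ← he, ← hf] at h
    simp only [map_zero, zero_mul, add_zero, zero_add, pow_zero, pow_one, mul_one, one_mul] at h
    have e1 : ∀ z : AF Ω S, algebraMap (AF Ω S) E z = z := fun _ => rfl
    simp only [e1] at h
    rw [← h]
    ring
  have hMN : ∀ (θ : E) (m : AF Ω S), (m : E) ∈ adjoin Ω (Acl Ω S ∪ {θ}) := fun θ m =>
    subset_adjoin _ _ (Or.inl (mem_AF.1 m.2))
  have hθN : ∀ θ : E, θ ∈ adjoin Ω (Acl Ω S ∪ {θ}) := fun θ => subset_adjoin _ _ (Or.inr rfl)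
  by_cases hxM : x ∈ AF Ω S
  · exact ⟨y, hMN y ⟨x, hxM⟩, hθN y⟩
  -- a zero with coordinates in `AF Ω S`
  obtain ⟨x0, y0, h0⟩ : ∃ x0 y0 : AF Ω S,
      (a : E) * x0 ^ 2 + b * (x0 * y0) + c * (y0 : E) ^ 2 + d * x0 + e * y0 + f = 0 := by
    by_cases hc0 : c = 0
    · by_cases he0 : e = 0
      · by_cases hb0 : b = 0
        · exfalso
          apply hxM
          refine quad34 f d a (r := x) ?_ ?_
          · rw [← hxy, hc0, he0, hb0]
            push_cast
            ring
          · rintro ⟨h1, h2, h3⟩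
            exact hne ⟨h3, hb0, hc0, h2, he0, h1⟩
        · refine ⟨1, -(a + d + f) / b, ?_⟩
          have hb0' : (b : E) ≠ 0 := fun h => hb0 (Subtype.ext h)
          rw [hc0, he0]
          push_cast
          field_simp
          ring
      · refine ⟨0, -f / e, ?_⟩
        have he0' : (e : E) ≠ 0 := fun h => he0 (Subtype.ext h)
        rw [hc0]
        push_cast
        field_simp
        ring
    · obtain ⟨r, hr⟩ := root34 f e c hc0
      refine ⟨0, r, ?_⟩
      rw [← hr]
      push_cast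
      ring
  have ht : x - x0 ≠ 0 := by
    intro h1
    apply hxM
    rw [sub_eq_zero] at h1
    rw [h1]
    exact x0.2
  obtain ⟨t, ht'⟩ : ∃ t : E, t = x - x0 := ⟨_, rfl⟩
  obtain ⟨θ, hθ⟩ : ∃ θ : E, θ = (y - y0) / t := ⟨_, rfl⟩
  rw [← ht'] at ht
  have hx : x = x0 + t := by rw [ht']; ring
  have hy : y = y0 + θ * t := by
    rw [hθ]
    field_simp
    ring
  have hAB : (2 * a * x0 + b * y0 + d + (b * x0 + 2 * c * y0 + e) * θ : E) +
      t * (a + b * θ + c * θ ^ 2) = 0 := by
    have h1 : t * ((2 * a * x0 + b * y0 + d + (b * x0 + 2 * c * y0 + e) * θ : E) +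
      t * (a + b * θ + c * θ ^ 2)) = 0 := by
      rw [hx, hy] at hxy
      linear_combination hxy - h0
    exact (mul_eq_zero.1 h1).resolve_left ht
  by_cases hB : (a + b * θ + c * θ ^ 2 : E) = 0
  · rw [hB, mul_zero, add_zero] at hAB
    have hθM : θ ∈ AF Ω S := by
      by_cases h1 : a = 0 ∧ b = 0 ∧ c = 0
      · obtain ⟨h1, h2, h3⟩ := h1
        refine quad34 d e 0 (r := θ) ?_ ?_
        · rw [← hAB, h1, h2, h3]
          push_cast
          ring
        · rintro ⟨h4, h5, -⟩
          apply hne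
          refine ⟨h1, h2, h3, h4, h5, ?_⟩
          rw [h1, h2, h3, h4, h5] at h0
          simp only [ZeroMemClass.coe_zero, zero_mul, zero_add] at h0
          exact Subtype.ext h0
      · exact quad34 a b c hB h1
    refine ⟨t, ?_, ?_⟩
    · rw [hx]
      exact add_mem (hMN t x0) (hθN t)
    · rw [hy]
      exact add_mem (hMN t y0) (mul_mem (hMN t ⟨θ, hθM⟩) (hθN t))
  · have htN : t ∈ adjoin Ω (Acl Ω S ∪ {θ}) := by
      have e1 : t = -(2 * a * x0 + b * y0 + d + (b * x0 + 2 * c * y0 + e) * θ : E) /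
          (a + b * θ + c * θ ^ 2) := by
        rw [eq_div_iff hB]
        linear_combination hAB
      have e2 : (2 * a * x0 + b * y0 + d : E) = ((a * x0 + a * x0 + b * y0 + d : AF Ω S) : E) := by
        push_cast
        ring
      have e3 : (b * x0 + 2 * c * y0 + e : E) = ((b * x0 + (c * y0 + c * y0) + e : AF Ω S) : E) := by
        push_cast
        ring
      rw [e1, e2, e3]
      refine div_mem (neg_mem (add_mem (hMN θ _) (mul_mem (hMN θ _) (hθN θ)))) ?_
      exact add_mem (add_mem (hMN θ a) (mul_mem (hMN θ b) (hθN θ)))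
        (mul_mem (hMN θ c) (pow_mem (hθN θ) 2))
    refine ⟨θ, ?_, ?_⟩
    · rw [hx]
      exact add_mem (hMN θ x0) htN
    · rw [hy]
      exact add_mem (hMN θ y0) (mul_mem (hθN θ) htN)

/-- the pull-back of a pencil of conics is uniruled -/
theorem uni_pencil {Ω K : Type} [Field Ω] [IsAlgClosed Ω] [Field K] [Algebra Ω K]
    (f g : MvPolynomial (Fin 2) Ω) (hf : f.totalDegree ≤ 2) (hg : g.totalDegree ≤ 2) {n : ℕ}
    (hn : 0 < n) (x y w : K) (hg0 : val g x y ≠ 0) (hw : w ^ n * val g x y = val f x y) :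
    Uniruled Ω (adjoin Ω {x, y, w} : IntermediateField Ω K) 2 := by
  by_cases hwa : IsAlgebraic Ω w
  · refine uni_plane75 x y w ?_
    obtain ⟨c, hc⟩ := minpoly.mem_range_of_degree_eq_one Ω w
      (IsAlgClosed.degree_eq_one_of_irreducible Ω (minpoly.irreducible hwa.isIntegral))
    rw [← hc]
    exact (adjoin Ω {x, y}).algebraMap_mem c
  let E := AlgebraicClosure K
  let ι : K →ₐ[Ω] E := IsScalarTower.toAlgHom Ω K E
  have hw0 : ¬ IsAlgebraic Ω (ι w) := fun h1 => hwa ((isAlgebraic_algHom_iff ι ι.injective).1 h1)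
  have hwM : ι w ∈ AF Ω ({ι w} : Set E) := subset_AF _ (Set.mem_singleton _)
  obtain ⟨W, hW⟩ : ∃ W : AF Ω ({ι w} : Set E), (W : E) = ι w := ⟨⟨_, hwM⟩, rfl⟩
  obtain ⟨G, hGdef⟩ : ∃ G : MvPolynomial (Fin 2) (AF Ω ({ι w} : Set E)),
      G = MvPolynomial.C (W ^ n) * MvPolynomial.map (algebraMap Ω _) g -
        MvPolynomial.map (algebraMap Ω _) f := ⟨_, rfl⟩
  have hG0 : G ≠ 0 := by
    intro h1
    have hgne : g ≠ 0 := by
      rintro rfl
      exact hg0 (by unfold val; rw [map_zero])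
    obtain ⟨d, hd⟩ := MvPolynomial.ne_zero_iff.1 hgne
    have h2 := congrArg (fun P => MvPolynomial.coeff d P) h1
    simp only [hGdef, MvPolynomial.coeff_sub, MvPolynomial.coeff_C_mul, MvPolynomial.coeff_map,
      MvPolynomial.coeff_zero] at h2
    have h3 := congrArg (fun z : AF Ω ({ι w} : Set E) => (z : E)) h2
    have h4 : (ι w) ^ n * algebraMap Ω E (g.coeff d) - algebraMap Ω E (f.coeff d) = 0 := by
      rw [← hW]
      exact h3
    apply hw0
    refine IsAlgebraic.of_pow hn ?_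
    have h5 : (ι w) ^ n = algebraMap Ω E (f.coeff d / g.coeff d) := by
      have h6 : algebraMap Ω E (g.coeff d) ≠ 0 := by
        rw [Ne, map_eq_zero]
        exact hd
      rw [map_div₀, eq_div_iff h6]
      linear_combination h4
    rw [h5]
    exact isAlgebraic_algebraMap _
  have hGdeg : G.totalDegree ≤ 2 := by
    rw [hGdef]
    refine (MvPolynomial.totalDegree_sub _ _).trans (max_le ?_ ?_)
    · refine (MvPolynomial.totalDegree_mul _ _).trans ?_
      rw [MvPolynomial.totalDegree_C, zero_add]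
      exact (Finset.sup_mono (MvPolynomial.support_map_subset _ _)).trans hg
    · exact (Finset.sup_mono (MvPolynomial.support_map_subset _ _)).trans hf
  have hGxy : MvPolynomial.aeval ![ι x, ι y] G = 0 := by
    have h1 : ∀ F : MvPolynomial (Fin 2) Ω, MvPolynomial.aeval ![ι x, ι y]
        (MvPolynomial.map (algebraMap Ω (AF Ω ({ι w} : Set E))) F) = ι (val F x y) := by
      intro F
      rw [map_val, MvPolynomial.aeval_map_algebraMap]
      rfl
    rw [hGdef, map_sub, map_mul, h1, h1, MvPolynomial.aeval_C, map_pow]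
    have h2 : algebraMap (AF Ω ({ι w} : Set E)) E W = ι w := hW
    rw [h2, ← hw, map_mul, map_pow, sub_self]
  obtain ⟨θ, e1, e2⟩ := conic_param ({ι w} : Set E) G hG0 hGdeg (ι x) (ι y) hGxy
  refine ⟨E, inferInstance, inferInstance, ι.comp (adjoin Ω {x, y, w}).val, {ι w}, θ, by simp, ?_⟩
  intro k
  rw [Finset.coe_singleton]
  have hle : (adjoin Ω {x, y, w} : IntermediateField Ω K) ≤
      (adjoin Ω (Acl Ω ({ι w} : Set E) ∪ {θ})).comap ι := by
    rw [adjoin_le_iff]
    intro s hs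
    simp only [Set.mem_insert_iff, Set.mem_singleton_iff] at hs
    rcases hs with rfl | rfl | rfl
    · exact e1
    · exact e2
    · exact subset_adjoin _ _ (Or.inl (mem_AF.1 hwM))
  exact hle k.2

end Pool.Agent.Helper75.TC
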