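import Pool.Agent.Helper75.TC.Frob
import Pool.Agent.Helper35.TD.Final2
import Pool.Agent.Helper48.ET.FrobTower

/-! Project TC: the result. Every relative Frobenius is semisimple on the second cohomology of the
cyclic covers of the plane in the table, of the elliptic towers, and of the surfaces which are
dominated by them. -/

set_option autoImplicit false

namespace Pool.Agent.Helper75.TC

open IntermediateField Module Pool.Agent.Helper75.QC Pool.Agent.Helper35.TD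

variable {p : ℕ} [hpr : Fact p.Prime] {Ω L : Type} [Field Ω] [CharP Ω p] [IsAlgClosed Ω]
  [Field L] [CharZero L] [IsAlgClosed L]

theorem isFrob_of_gen {K : Type} [Field K] [Algebra Ω K] {q : ℕ} (φ : K →ₐ[Ω] K) (S : Set K)
    (hS : adjoin Ω S = ⊤) (h : ∀ s ∈ S, φ s = s ^ q) : IsFrob q φ := by
  show adjoin Ω _ = ⊤
  rw [eq_top_iff, ← hS]
  exact adjoin.mono _ _ _ h

/-- **Cyclic covers of the plane.** -/
theorem good_table (hΩ : ∀ c : Ω, ∃ k : ℕ, 0 < k ∧ c ^ p ^ k = c) (T : Theory p Ω L) {K : Type}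
    [Field K] [Algebra Ω K] (hc : IsTableCover Ω K) : Good T K := by
  have hfg := hc.fg
  obtain ⟨n, f, g, h, a, b, c, x, y, w, hn, H, hK, hdeg, hw⟩ := hc
  refine Good.of_pow T hfg fun e φ he hφ => ?_
  obtain ⟨k, hk, hk'⟩ := frob_set hΩ φ hφ {x, y, w} (Set.toFinite _)
  have hk1 := hk' k dvd_rfl
  refine ⟨k, hk, ?_⟩
  have hek : 0 < e * k := Nat.mul_pos he hk
  have hw' : w ^ n = val f x y ^ a * val g x y ^ b * val h x y ^ c := hw
  have hwF : w ^ n ∈ adjoin Ω {x, y} := by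
    have hx : x ∈ adjoin Ω {x, y} := subset_adjoin _ _ (by simp)
    have hy : y ∈ adjoin Ω {x, y} := subset_adjoin _ _ (by simp)
    rw [hw']
    exact mul_mem (mul_mem (pow_mem (val_mem f _ hx hy) _) (pow_mem (val_mem g _ hx hy) _))
      (pow_mem (val_mem h _ hx hy) _)
  refine Pool.Agent.Helper75.QC.insep_gen T hn hek x y w hK hwF hdeg (φ ^ k)
    ⟨hk1 x (by simp), hk1 y (by simp), hk1 w (by simp)⟩ ?_
  intro m n' hnn hn0 hcast K1 x1 y1 w1 hx hy hw1 htop hdeg1 φ1 hφ1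
  have hw2 : w1 ^ n' = val f x1 y1 ^ a * val g x1 y1 ^ b * val h x1 y1 ^ c := by
    apply Subtype.ext
    have h3 : K1.val (val f x1 y1 ^ a * val g x1 y1 ^ b * val h x1 y1 ^ c) =
        val f x y ^ a * val g x y ^ b * val h x y ^ c := by
      have hx' : K1.val x1 = x := hx
      have hy' : K1.val y1 = y := hy
      rw [map_mul, map_mul, map_pow, map_pow, map_pow, map_val, map_val, map_val, hx', hy']
    show (w1 : K) ^ n' = K1.val (val f x1 y1 ^ a * val g x1 y1 ^ b * val h x1 y1 ^ c)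
    rw [h3, ← hw', hw1, hnn, pow_mul]
  obtain ⟨w', -, hI⟩ := target2 T.toBaseTheory hn0 hcast x1 y1 w1 htop hdeg1 f g h a b c
    (H.of_dvd (Dvd.intro_left (p ^ m) hnn.symm)) hw2 {w1, val f x1 y1, val g x1 y1}
    (by simp) (by simp) (by simp)
  have hfr : IsFrob (p ^ (e * k)) φ1 := by
    refine isFrob_of_gen φ1 {x1, y1, w1} htop ?_
    rintro s (rfl | rfl | rfl)
    · exact hφ1.1
    · exact hφ1.2.1
    · exact hφ1.2.2
  obtain ⟨l, hl, hl'⟩ := frob_set hΩ φ1 hfr {x1, y1, w'} (Set.toFinite _)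
  have hl1 := hl' l dvd_rfl
  have hss := hI.frob hn0 hcast (φ1 ^ l)
    ⟨hl1 x1 (by simp), hl1 y1 (by simp), hl1 w' (by simp)⟩
  have hfg1 : (⊤ : IntermediateField Ω K1).FG := by
    rw [← htop]
    exact fg_adjoin_of_finite (Set.toFinite _)
  have hfin : FiniteDimensional L (T.H 2 K1) := T.fin 2 K1 hfg1
  refine semisimple_of_pow (T.map 2 φ1) (T.inj 2 φ1
    (isFrob_algebraic (pow_pos hpr.out.pos (e * k)) hfr)) hl ?_
  rw [← tmap_pow75 T.toBaseTheory]
  exact hss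

/-- **Elliptic towers.** -/
theorem good_tower (hΩ : ∀ c : Ω, ∃ k : ℕ, 0 < k ∧ c ^ p ^ k = c) (h2 : (2 : Ω) ≠ 0)
    (T : Theory p Ω L) {K : Type} [Field K] [Algebra Ω K] (hc : IsTower Ω K) : Good T K := by
  have hfg := hc.fg
  obtain ⟨n, h, x, y, w, hn, hh, hK, hy⟩ := hc
  refine Good.of_pow T hfg fun e φ he hφ => ?_
  obtain ⟨k, hk, hk'⟩ := frob_set hΩ φ hφ {x, y, w} (Set.toFinite _)
  have hk1 := hk' k dvd_rfl
  exact ⟨k, hk, Pool.Agent.Helper48.ET.frob_tower T h2 h hh hn (Nat.mul_pos he hk) x y w hK hy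
    (φ ^ k) ⟨hk1 x (by simp), hk1 y (by simp), hk1 w (by simp)⟩⟩

/-- **Pairs.** -/
theorem good_pair (hΩ : ∀ c : Ω, ∃ k : ℕ, 0 < k ∧ c ^ p ^ k = c) (h2 : (2 : Ω) ≠ 0)
    (T : Theory p Ω L) {K : Type} [Field K] [Algebra Ω K] (hc : IsPairCover Ω K) : Good T K := by
  have hfg := hc.fg
  obtain ⟨n, f, q, x, y, w, hn, hfq, hK, hdeg, hq, hw⟩ := hc
  refine Good.of_pow T hfg fun e φ he hφ => ?_
  obtain ⟨k, hk, hk'⟩ := frob_set hΩ φ hφ {x, y, w} (Set.toFinite _)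
  have hk1 := hk' k dvd_rfl
  exact ⟨k, hk, Pool.Agent.Helper48.ET.frob_pair T h2 f q hfq hn (Nat.mul_pos he hk) x y w hK
    hdeg hq hw (φ ^ k) ⟨hk1 x (by simp), hk1 y (by simp), hk1 w (by simp)⟩⟩

/-- from the generic point to the surface -/
theorem Good.surface {T : Theory p Ω L} {K : Type} [Field K] [Algebra Ω K] (h : Good T K) {e : ℕ}
    (he : 0 < e) (φ : K →ₐ[Ω] K) (hφ : IsFrob (p ^ e) φ) {V : Type} [AddCommGroup V]
    [Module L V] (Fr : Module.End L V) (r : V →ₗ[L] T.H 2 K) (hV : IsH2 T (p ^ e) φ Fr r) :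
    Fr.IsSemisimple := by
  obtain ⟨k, hk, hk'⟩ := hV.classes
  refine semisimple_of_parts Fr (T.map 2 φ) r hV.comm (h e φ he hφ) ((p ^ e : ℕ) : L) ?_ hk hk'
    hV.compl
  exact_mod_cast pow_ne_zero _ hpr.out.ne_zero

end Pool.Agent.Helper75.TC
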