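import Pool.Agent.Helper75.TC.Data

/-! Surfaces which are dominated by a surface with semisimple Frobenius. -/

set_option autoImplicit false

namespace Pool.Agent.Helper75.TC

open IntermediateField Pool.Agent.Helper75.QC

theorem semisimple_of_inj {L : Type} [Field L] {V W : Type} [AddCommGroup V] [Module L V]
    [AddCommGroup W] [Module L W] [FiniteDimensional L W] (Φ : Module.End L V)
    (Ψ : Module.End L W) (g : V →ₗ[L] W) (hg : Function.Injective g)
    (hc : ∀ v, g (Φ v) = Ψ (g v)) (h : Ψ.IsSemisimple) : Φ.IsSemisimple := by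
  have h1 : ∀ (P : Polynomial L) (v : V),
      g (Polynomial.aeval Φ P v) = Polynomial.aeval Ψ P (g v) := by
    intro P v
    induction P using Polynomial.induction_on' with
    | add P Q hP hQ =>
      rw [map_add, map_add, LinearMap.add_apply, LinearMap.add_apply, map_add, hP, hQ]
    | monomial m c =>
      have h2 : ∀ m : ℕ, g ((Φ ^ m) v) = (Ψ ^ m) (g v) := by
        intro m
        induction m with
        | zero => simp
        | succ m ih => rw [pow_succ', pow_succ', Module.End.mul_apply, Module.End.mul_apply, hc, ih]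
      rw [Polynomial.aeval_monomial, Polynomial.aeval_monomial, Algebra.algebraMap_eq_smul_one,
        Algebra.algebraMap_eq_smul_one, smul_mul_assoc, one_mul, smul_mul_assoc, one_mul,
        LinearMap.smul_apply, LinearMap.smul_apply, map_smul, h2]
  refine Module.End.isSemisimple_of_squarefree_aeval_eq_zero h.minpoly_squarefree ?_
  refine LinearMap.ext fun v => hg ?_
  rw [h1, minpoly.aeval]
  simp

/-- `K0 → K` is algebraic, `φ0` a relative Frobenius of `K0`, its `m`-th power is induced by `φ` -/
theorem semisimple_of_dom {p : ℕ} [Fact p.Prime] {Ω L : Type} [Field Ω] [Field L] [CharZero L]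
    [IsAlgClosed L] (T : Theory p Ω L) {K0 K : Type} [Field K0] [Algebra Ω K0] [Field K]
    [Algebra Ω K] (hK : (⊤ : IntermediateField Ω K).FG) (g : K0 →ₐ[Ω] K)
    (hg : ∀ a : K, IsAlgebraic g.fieldRange a) {e m : ℕ} (hm : 0 < m) (φ0 : K0 →ₐ[Ω] K0)
    (φ : K →ₐ[Ω] K) (h0 : IsFrob (p ^ e) φ0) (hc : ∀ a, g ((φ0 ^ m) a) = φ (g a))
    (h : Module.End.IsSemisimple (T.map 2 φ)) : Module.End.IsSemisimple (T.map 2 φ0) := by
  have hfin : FiniteDimensional L (T.H 2 K) := T.fin 2 K hK
  have hi : Function.Injective (T.map 2 g) := T.inj 2 g hg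
  have hfin0 : FiniteDimensional L (T.H 2 K0) := FiniteDimensional.of_injective _ hi
  refine semisimple_of_pow (T.map 2 φ0) (T.inj 2 φ0
    (isFrob_algebraic (pow_pos (Fact.out : p.Prime).pos e) h0)) hm ?_
  rw [← tmap_pow75 T.toBaseTheory]
  refine semisimple_of_inj _ _ (T.map 2 g) hi (fun v => ?_) h
  have h1 : g.comp (φ0 ^ m) = φ.comp g := AlgHom.ext fun a => hc a
  have h2 := congrArg (fun r => T.map 2 r v) h1
  simp only [T.map_comp, LinearMap.comp_apply] at h2
  exact h2

end Pool.Agent.Helper75.TC
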