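import Pool.Agent.Helper15.QM.Gen

/-! Abelian covers with two Kummer generators: the cohomology is spanned by the images of the
cohomology of the cyclic subextensions `Ω(S)(w ^ a z ^ b)`. -/

set_option autoImplicit false

namespace Pool.Agent.Helper75.TC

open IntermediateField Module Pool.Agent.Helper75.QC

/-- `K = Ω(S)(w, z)` has degree `n m` over `Ω(S)`, and `w ^ n`, `z ^ m` are in `Ω(S)`. -/
structure Bicyclic {Ω K : Type} [Field Ω] [Field K] [Algebra Ω K] (S : Set K) (n m : ℕ) (w z : K) :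
    Prop where
  top : adjoin Ω (S ∪ {w, z}) = ⊤
  hw : w ^ n ∈ adjoin Ω S
  hz : z ^ m ∈ adjoin Ω S
  deg : finrank (adjoin Ω S) K = n * m

theorem deg_le_pow {F E : Type} [Field F] [Field E] [Algebra F E] (z : E) {d : ℕ} (hd : 0 < d)
    (hz : z ^ d ∈ (algebraMap F E).range) : finrank F F⟮z⟯ ≤ d := by
  obtain ⟨c, hc⟩ := hz
  have hint : IsIntegral F z := by
    refine IsIntegral.of_pow hd ?_
    rw [← hc]
    exact isIntegral_algebraMap
  rw [adjoin.finrank hint]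
  have h2 : minpoly F z ∣ Polynomial.X ^ d - Polynomial.C c := by
    refine minpoly.dvd _ _ ?_
    rw [map_sub, map_pow, Polynomial.aeval_X, Polynomial.aeval_C, hc]
    exact sub_self _
  have h3 := Polynomial.natDegree_le_of_dvd h2 (Polynomial.X_pow_sub_C_ne_zero hd _)
  rwa [Polynomial.natDegree_X_pow_sub_C] at h3

variable {Ω K : Type} [Field Ω] [Field K] [Algebra Ω K] {S : Set K} {n m : ℕ} {w z : K}

theorem Bicyclic.symm (H : Bicyclic (Ω := Ω) S n m w z) : Bicyclic (Ω := Ω) S m n z w :=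
  ⟨by rw [Set.pair_comm]; exact H.top, H.hz, H.hw, by rw [mul_comm]; exact H.deg⟩

/-- an automorphism over `Ω(S)(z)` -/
theorem Bicyclic.sigma (H : Bicyclic (Ω := Ω) S n m w z) (hn : 0 < n) (hm : 0 < m)
    (hn' : (n : Ω) ≠ 0) {ζ : Ω} (hζ : ζ ^ n = 1) :
    ∃ σ : K →ₐ[Ω] K, (∀ k ∈ S, σ k = k) ∧ σ w = algebraMap Ω K ζ * w ∧ σ z = z := by
  obtain ⟨M, hM⟩ : ∃ M : IntermediateField Ω K, M = adjoin Ω S := ⟨_, rfl⟩
  have hdeg : finrank M K = n * m := by
    rw [hM]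
    exact H.deg
  obtain ⟨N, hN⟩ : ∃ N : IntermediateField Ω K, N = (M⟮z⟯).restrictScalars Ω := ⟨_, rfl⟩
  have hzN : z ∈ N := by
    rw [hN, mem_restrictScalars]
    exact mem_adjoin_simple_self M z
  have hMN : M ≤ N := by
    intro a ha
    rw [hN, mem_restrictScalars]
    exact (M⟮z⟯).algebraMap_mem (⟨a, ha⟩ : M)
  have hSM : ∀ k ∈ S, k ∈ M := by
    intro k hk
    rw [hM]
    exact subset_adjoin _ _ hk
  have htop : adjoin Ω ((N : Set K) ∪ {w}) = ⊤ := by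
    rw [eq_top_iff, ← H.top, adjoin_le_iff]
    rintro s (hs | rfl | rfl)
    · exact subset_adjoin _ _ (Or.inl (hMN (hSM s hs)))
    · exact subset_adjoin _ _ (Or.inr rfl)
    · exact subset_adjoin _ _ (Or.inl hzN)
  have hwM : w ^ n ∈ M := by
    rw [hM]
    exact H.hw
  have hzM : z ^ m ∈ M := by
    rw [hM]
    exact H.hz
  -- the degrees
  have d1 : finrank M M⟮z⟯ ≤ m := deg_le_pow z hm ⟨⟨_, hzM⟩, rfl⟩
  have d2 : finrank M⟮z⟯ K ≤ n := by
    have h1 : (M⟮z⟯)⟮w⟯ = ⊤ := by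
      rw [eq_top_iff]
      intro a _
      have h2 : adjoin Ω ((N : Set K) ∪ {w}) ≤ ((M⟮z⟯)⟮w⟯.restrictScalars M).restrictScalars Ω := by
        rw [adjoin_le_iff]
        rintro s (hs | rfl)
        · rw [SetLike.mem_coe, hN, mem_restrictScalars] at hs
          exact ((M⟮z⟯)⟮w⟯).algebraMap_mem (⟨s, hs⟩ : M⟮z⟯)
        · exact mem_adjoin_simple_self _ s
      rw [htop] at h2
      exact h2 (mem_top (x := a))
    have h3 := deg_le_pow (F := M⟮z⟯) w hn ⟨⟨_, (M⟮z⟯).algebraMap_mem (⟨_, hwM⟩ : M)⟩, rfl⟩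
    rwa [h1, finrank_top'] at h3
  have d3 : finrank M M⟮z⟯ * finrank M⟮z⟯ K = n * m := by
    rw [finrank_mul_finrank, hdeg]
  have d4 : finrank M⟮z⟯ K = n := by
    apply le_antisymm d2
    by_contra hlt
    push Not at hlt
    have h5 : finrank M M⟮z⟯ * finrank M⟮z⟯ K ≤ m * finrank M⟮z⟯ K := Nat.mul_le_mul_right _ d1
    have h6 : m * finrank M⟮z⟯ K < m * n := Nat.mul_lt_mul_of_pos_left hlt hm
    rw [d3, mul_comm n m] at h5
    omega
  have hdegN : finrank N K = n := by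
    subst hN
    exact d4
  obtain ⟨σ, h1, h2⟩ := Pool.Agent.Helper15.QM.Gen.kummer_sigma hn hn' hζ N w htop
    (hMN hwM) hdegN
  exact ⟨σ, fun k hk => h1 k (hMN (hSM k hk)), h2, h1 z hzN⟩

theorem fix_adjoin (ρ : K →ₐ[Ω] K) (h : ∀ k ∈ S, ρ k = k) : ∀ k ∈ adjoin Ω S, ρ k = k := by
  intro k hk
  induction hk using adjoin_induction with
  | mem k hk => exact h k hk
  | algebraMap c => exact ρ.commutes c
  | add a b _ _ ha hb => rw [map_add, ha, hb]
  | inv a _ ha => rw [map_inv₀, ha]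
  | mul a b _ _ ha hb => rw [map_mul, ha, hb]

/-- the automorphisms `w ↦ Θ ^ (m i) w`, `z ↦ Θ ^ (n j) z` -/
theorem Bicyclic.aut (H : Bicyclic (Ω := Ω) S n m w z) (hn : 0 < n) (hm : 0 < m)
    (hn' : (n : Ω) ≠ 0) (hm' : (m : Ω) ≠ 0) {Θ : Ω} (hΘ : Θ ^ (n * m) = 1) :
    ∃ σ τ : K →ₐ[Ω] K, (∀ k ∈ S, σ k = k) ∧ (∀ k ∈ S, τ k = k) ∧
      ∀ i j : ℕ, (∀ k ∈ S, (σ ^ i * τ ^ j) k = k) ∧
        (σ ^ i * τ ^ j) w = algebraMap Ω K (Θ ^ (m * i)) * w ∧
        (σ ^ i * τ ^ j) z = algebraMap Ω K (Θ ^ (n * j)) * z := by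
  obtain ⟨σ, h1, h2, h3⟩ := H.sigma hn hm hn' (ζ := Θ ^ m) (by rw [← pow_mul, mul_comm]; exact hΘ)
  obtain ⟨τ, g1, g2, g3⟩ := H.symm.sigma hm hn hm' (ζ := Θ ^ n) (by rw [← pow_mul]; exact hΘ)
  have pf : ∀ (ρ : K →ₐ[Ω] K) (a : K), ρ a = a → ∀ i : ℕ, (ρ ^ i) a = a := by
    intro ρ a ha i
    induction i with
    | zero => simp
    | succ i ih => rw [pow_succ, AlgHom.mul_apply, ha, ih]
  have pm : ∀ (ρ : K →ₐ[Ω] K) (c : Ω) (a : K), ρ a = algebraMap Ω K c * a →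
      ∀ i : ℕ, (ρ ^ i) a = algebraMap Ω K (c ^ i) * a := by
    intro ρ c a ha i
    induction i with
    | zero => simp
    | succ i ih =>
      rw [pow_succ, AlgHom.mul_apply, ha, map_mul, ih, AlgHom.commutes, pow_succ, map_mul]
      ring
  refine ⟨σ, τ, h1, g1, fun i j => ⟨fun k hk => ?_, ?_, ?_⟩⟩
  · rw [AlgHom.mul_apply, pf τ k (g1 k hk), pf σ k (h1 k hk)]
  · rw [AlgHom.mul_apply, pf τ w g3, pm σ _ w h2, ← pow_mul]
  · rw [AlgHom.mul_apply, pm τ _ z g2, map_mul, AlgHom.commutes, pf σ z h3, ← pow_mul]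

theorem theta_inj {Θ : Ω} (hΘ : IsPrimitiveRoot Θ (n * m)) (hm : 0 < m) {i i' : ℕ} (hi : i < n)
    (hi' : i' < n) (h : Θ ^ (m * i) = Θ ^ (m * i')) : i = i' := by
  have h1 : m * i < n * m := by
    rw [mul_comm n m]
    exact Nat.mul_lt_mul_of_pos_left hi hm
  have h2 : m * i' < n * m := by
    rw [mul_comm n m]
    exact Nat.mul_lt_mul_of_pos_left hi' hm
  exact Nat.eq_of_mul_eq_mul_left hm (hΘ.pow_inj h1 h2 h)

/-- `K` is a Galois extension of `Ω(S)` -/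
theorem Bicyclic.galois (H : Bicyclic (Ω := Ω) S n m w z) (hn : 0 < n) (hm : 0 < m)
    (hn' : (n : Ω) ≠ 0) (hm' : (m : Ω) ≠ 0) (hw0 : w ≠ 0) (hz0 : z ≠ 0) {Θ : Ω}
    (hΘ : IsPrimitiveRoot Θ (n * m)) :
    FiniteDimensional (adjoin Ω S) K ∧ IsGalois (adjoin Ω S) K := by
  classical
  have hfin : FiniteDimensional (adjoin Ω S) K :=
    Module.finite_of_finrank_pos (by rw [H.deg]; exact Nat.mul_pos hn hm)
  refine ⟨hfin, ?_⟩
  obtain ⟨σ, τ, -, -, h⟩ := H.aut hn hm hn' hm' hΘ.pow_eq_one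
  -- the homomorphisms over `Ω(S)`
  let f : Fin n × Fin m → (K →ₐ[adjoin Ω S] K) := fun ij =>
    { toRingHom := ((σ ^ (ij.1 : ℕ) * τ ^ (ij.2 : ℕ) : K →ₐ[Ω] K) : K →+* K)
      commutes' := fun k => fix_adjoin _ (h ij.1 ij.2).1 _ k.2 }
  have hf : Function.Injective f := by
    rintro ⟨i, j⟩ ⟨i', j'⟩ hij
    have e1 : (σ ^ (i : ℕ) * τ ^ (j : ℕ)) w = (σ ^ (i' : ℕ) * τ ^ (j' : ℕ)) w :=
      DFunLike.congr_fun hij w
    have e2 : (σ ^ (i : ℕ) * τ ^ (j : ℕ)) z = (σ ^ (i' : ℕ) * τ ^ (j' : ℕ)) z :=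
      DFunLike.congr_fun hij z
    rw [(h i j).2.1, (h i' j').2.1] at e1
    rw [(h i j).2.2, (h i' j').2.2] at e2
    have e3 := (algebraMap Ω K).injective (mul_right_cancel₀ hw0 e1)
    have e4 := (algebraMap Ω K).injective (mul_right_cancel₀ hz0 e2)
    have e5 := theta_inj hΘ hm i.2 i'.2 e3
    have e6 := theta_inj (n := m) (m := n) (by rw [mul_comm]; exact hΘ) hn j.2 j'.2 e4
    exact Prod.ext (Fin.ext e5) (Fin.ext e6)
  apply IsGalois.of_card_aut_eq_finrank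
  have c1 : Nat.card (K ≃ₐ[adjoin Ω S] K) = Fintype.card (K →ₐ[adjoin Ω S] K) := by
    rw [Nat.card_congr (algEquivEquivAlgHom (adjoin Ω S) K).toEquiv, Nat.card_eq_fintype_card]
  rw [c1]
  apply le_antisymm AlgHom.card_le
  have c2 := Fintype.card_le_of_injective f hf
  rw [Fintype.card_prod, Fintype.card_fin, Fintype.card_fin] at c2
  rw [H.deg]
  exact c2

theorem tmap_mul {L : Type} [Field L] (T : BaseTheory Ω L) (r : ℕ) (ρ ρ' : K →ₐ[Ω] K) :
    T.map r (ρ * ρ') = T.map r ρ * T.map r ρ' := T.map_comp r ρ' ρ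

theorem tmap_pow {L : Type} [Field L] (T : BaseTheory Ω L) (r : ℕ) (ρ : K →ₐ[Ω] K) (k : ℕ) :
    T.map r (ρ ^ k) = T.map r ρ ^ k := by
  induction k with
  | zero => exact T.map_id r K
  | succ k ih => rw [pow_succ, tmap_mul, ih, pow_succ]

theorem pow_eig {L V : Type} [Field L] [AddCommGroup V] [Module L V] (A : Module.End L V) {ξ : L}
    {t : V} (h : A t = ξ • t) (k : ℕ) : (A ^ k) t = ξ ^ k • t := by
  induction k with
  | zero => simp
  | succ k ih => rw [pow_succ, Module.End.mul_apply, h, map_smul, ih, smul_smul, pow_succ, mul_comm]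

theorem iSup_eig {L V : Type} [Field L] [CharZero L] [IsAlgClosed L] [AddCommGroup V]
    [Module L V] [FiniteDimensional L V] (A : Module.End L V) {n : ℕ} (hn : 0 < n)
    (hA : A ^ n = 1) : ⨆ ξ, A.eigenspace ξ = ⊤ := by
  have hnL : (n : L) ≠ 0 := by exact_mod_cast hn.ne'
  have hss : A.IsSemisimple := by
    refine Module.End.isSemisimple_of_squarefree_aeval_eq_zero
      (p := Polynomial.X ^ n - Polynomial.C 1)
      (Polynomial.separable_X_pow_sub_C (1 : L) hnL one_ne_zero).squarefree ?_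
    simp [hA]
  exact hss.iSup_eigenspace_eq_top

/-- two commuting endomorphisms of finite order: common eigenvectors span -/
theorem mem_of_common {L V : Type} [Field L] [CharZero L] [IsAlgClosed L] [AddCommGroup V]
    [Module L V] [FiniteDimensional L V] (A B : Module.End L V) (hc : A * B = B * A) {n m : ℕ}
    (hn : 0 < n) (hm : 0 < m) (hA : A ^ n = 1) (hB : B ^ m = 1) (W : Submodule L V)
    (h : ∀ (ξ η : L) (t : V), A t = ξ • t → B t = η • t → t ∈ W) : W = ⊤ := by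
  rw [eq_top_iff, ← iSup_eig A hn hA]
  refine iSup_le fun ξ => ?_
  have hinv : ∀ t ∈ A.eigenspace ξ, B t ∈ A.eigenspace ξ := by
    intro t ht
    rw [Module.End.mem_eigenspace_iff] at ht ⊢
    have h1 : A (B t) = B (A t) := LinearMap.congr_fun hc t
    rw [h1, ht, map_smul]
  have hpow : ∀ (k : ℕ) (t : A.eigenspace ξ), (((B.restrict hinv) ^ k) t : V) = (B ^ k) (t : V) := by
    intro k
    induction k with
    | zero => intro t; rfl
    | succ k ih =>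
      intro t
      rw [pow_succ, pow_succ, Module.End.mul_apply, Module.End.mul_apply, ih]
      rfl
  have h1 := iSup_eig (B.restrict hinv) hm (by
    refine LinearMap.ext fun t => Subtype.ext ?_
    rw [hpow, hB]
    rfl)
  have h2 : (⨆ η, End.eigenspace (B.restrict hinv) η) ≤ W.comap (A.eigenspace ξ).subtype := by
    refine iSup_le fun η t ht => ?_
    rw [Module.End.mem_eigenspace_iff] at ht
    exact h ξ η t (Module.End.mem_eigenspace_iff.1 t.2) (congrArg Subtype.val ht)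
  rw [h1] at h2
  intro t ht
  exact h2 (Submodule.mem_top (x := ⟨t, ht⟩))

/-- **The cohomology of an abelian cover is spanned by that of its cyclic quotients.** -/
theorem Bicyclic.span [IsAlgClosed Ω] (H : Bicyclic (Ω := Ω) S n m w z) (hn : 0 < n) (hm : 0 < m)
    (hn' : (n : Ω) ≠ 0) (hm' : (m : Ω) ≠ 0) (hw0 : w ≠ 0) (hz0 : z ≠ 0) {L : Type} [Field L]
    [CharZero L] [IsAlgClosed L] (T : BaseTheory Ω L) (r : ℕ)
    [FiniteDimensional L (T.H r K)] :
    (⨆ ij : Fin n × Fin m, LinearMap.range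
      (T.map r (adjoin Ω (S ∪ {w ^ (ij.1 : ℕ) * z ^ (ij.2 : ℕ)})).val)) = ⊤ := by
  classical
  have hnm : 0 < n * m := Nat.mul_pos hn hm
  have i1 : NeZero ((n * m : ℕ) : Ω) := ⟨by push_cast; exact mul_ne_zero hn' hm'⟩
  have i2 : NeZero ((n * m : ℕ) : L) := ⟨by exact_mod_cast hnm.ne'⟩
  obtain ⟨Θ, hΘ⟩ : ∃ Θ : Ω, IsPrimitiveRoot Θ (n * m) :=
    HasEnoughRootsOfUnity.exists_primitiveRoot Ω (n * m)
  obtain ⟨θ, hθ⟩ : ∃ θ : L, IsPrimitiveRoot θ (n * m) :=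
    HasEnoughRootsOfUnity.exists_primitiveRoot L (n * m)
  obtain ⟨hfin, hgal⟩ := H.galois hn hm hn' hm' hw0 hz0 hΘ
  obtain ⟨σ, τ, hσS, hτS, h⟩ := H.aut hn hm hn' hm' hΘ.pow_eq_one
  have g1 : ∀ k, (∀ s ∈ S, (σ ^ k) s = s) ∧ (σ ^ k) w = algebraMap Ω K (Θ ^ (m * k)) * w ∧
      (σ ^ k) z = z := by
    intro k
    have h1 := h k 0
    rw [pow_zero, mul_one] at h1
    refine ⟨h1.1, h1.2.1, ?_⟩
    rw [h1.2.2]
    simp
  have g2 : ∀ k, (∀ s ∈ S, (τ ^ k) s = s) ∧ (τ ^ k) w = w ∧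
      (τ ^ k) z = algebraMap Ω K (Θ ^ (n * k)) * z := by
    intro k
    have h1 := h 0 k
    rw [pow_zero, one_mul] at h1
    refine ⟨h1.1, ?_, h1.2.2⟩
    rw [h1.2.1]
    simp
  have eσ : σ ^ n = 1 := by
    refine hom_ext _ H.top _ _ ?_
    rintro s (hs | rfl | rfl)
    · exact (g1 n).1 s hs
    · rw [(g1 n).2.1, mul_comm m n, hΘ.pow_eq_one, map_one, one_mul]
      rfl
    · exact (g1 n).2.2
  have eτ : τ ^ m = 1 := by
    refine hom_ext _ H.top _ _ ?_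
    rintro s (hs | rfl | rfl)
    · exact (g2 m).1 s hs
    · exact (g2 m).2.1
    · rw [(g2 m).2.2, hΘ.pow_eq_one, map_one, one_mul]
      rfl
  have ec : σ * τ = τ * σ := by
    have a1 := g1 1
    have a2 := g2 1
    rw [pow_one] at a1 a2
    refine hom_ext _ H.top _ _ ?_
    rintro s (hs | rfl | rfl)
    · rw [AlgHom.mul_apply, AlgHom.mul_apply, a2.1 s hs, a1.1 s hs, a2.1 s hs]
    · rw [AlgHom.mul_apply, AlgHom.mul_apply, a2.2.1, a1.2.1, map_mul, AlgHom.commutes, a2.2.1]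
    · rw [AlgHom.mul_apply, AlgHom.mul_apply, a1.2.2, a2.2.2, map_mul, AlgHom.commutes, a1.2.2]
  refine mem_of_common (T.map r σ) (T.map r τ) ?_ hn hm ?_ ?_ _ ?_
  · rw [← tmap_mul, ← tmap_mul, ec]
  · rw [← tmap_pow, eσ]
    exact T.map_id r K
  · rw [← tmap_pow, eτ]
    exact T.map_id r K
  intro ξ η t hξ hη
  by_cases ht0 : t = 0
  · rw [ht0]
    exact zero_mem _
  have hξn : ξ ^ n = 1 := by
    have h1 := pow_eig _ hξ n
    rw [← tmap_pow, eσ] at h1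
    have h2 : T.map r (1 : K →ₐ[Ω] K) t = t := LinearMap.congr_fun (T.map_id r K) t
    rw [h2] at h1
    have h3 : (1 : L) • t = ξ ^ n • t := by rw [one_smul]; exact h1
    exact (smul_left_injective L ht0 h3).symm
  have hηm : η ^ m = 1 := by
    have h1 := pow_eig _ hη m
    rw [← tmap_pow, eτ] at h1
    have h2 : T.map r (1 : K →ₐ[Ω] K) t = t := LinearMap.congr_fun (T.map_id r K) t
    rw [h2] at h1
    have h3 : (1 : L) • t = η ^ m • t := by rw [one_smul]; exact h1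
    exact (smul_left_injective L ht0 h3).symm
  have : NeZero n := ⟨hn.ne'⟩
  have : NeZero m := ⟨hm.ne'⟩
  obtain ⟨a, ha, rfl⟩ := (hθ.pow hnm (mul_comm n m)).eq_pow_of_pow_eq_one hξn
  obtain ⟨b, hb, rfl⟩ := (hθ.pow hnm rfl).eq_pow_of_pow_eq_one hηm
  obtain ⟨y, hy⟩ : ∃ y, y = w ^ a * z ^ b := ⟨_, rfl⟩
  have hy0 : y ≠ 0 := by
    rw [hy]
    exact mul_ne_zero (pow_ne_zero _ hw0) (pow_ne_zero _ hz0)
  suffices hmem : t ∈ LinearMap.range (T.map r (adjoin Ω (S ∪ {y})).val) by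
    refine Submodule.mem_iSup_of_mem (⟨a, ha⟩, ⟨b, hb⟩) ?_
    rw [hy] at hmem
    exact hmem
  have hMN : adjoin Ω S ≤ adjoin Ω (S ∪ {y}) := adjoin.mono _ _ _ Set.subset_union_left
  have hgN : IsGalois (adjoin Ω (S ∪ {y})) K :=
    (inferInstance : IsGalois (extendScalars hMN) K)
  have hfN : FiniteDimensional (adjoin Ω (S ∪ {y})) K :=
    (inferInstance : FiniteDimensional (extendScalars hMN) K)
  refine T.descent r K (adjoin Ω (S ∪ {y})) t fun ρ => ?_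
  have hρ : ∀ k ∈ adjoin Ω (S ∪ {y}), ρ k = k := fun k hk => ρ.commutes ⟨k, hk⟩
  have root : ∀ (l : ℕ) (c : Ω) (u : K), 0 < l → IsPrimitiveRoot c l → u ≠ 0 →
      u ^ l ∈ adjoin Ω S → ∃ i : ℕ, ρ u = algebraMap Ω K (c ^ i) * u := by
    intro l c u hl hc hu hul
    have : NeZero l := ⟨hl.ne'⟩
    have h1 : (ρ u / u) ^ l = 1 := by
      rw [div_pow, ← map_pow, hρ _ (hMN hul), div_self (pow_ne_zero _ hu)]
    obtain ⟨i, -, hi⟩ :=
      (hc.map_of_injective (algebraMap Ω K).injective).eq_pow_of_pow_eq_one h1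
    refine ⟨i, ?_⟩
    rw [map_pow, hi, div_mul_cancel₀ _ hu]
  obtain ⟨i, hi⟩ := root n (Θ ^ m) w hn (hΘ.pow hnm (mul_comm n m)) hw0 H.hw
  obtain ⟨j, hj⟩ := root m (Θ ^ n) z hm (hΘ.pow hnm rfl) hz0 H.hz
  rw [← pow_mul] at hi hj
  have hρe : ρ.restrictScalars Ω = σ ^ i * τ ^ j := by
    refine hom_ext _ H.top _ _ ?_
    rintro s (hs | rfl | rfl)
    · rw [(h i j).1 s hs]
      exact hρ s (subset_adjoin _ _ (Or.inl hs))
    · rw [(h i j).2.1]
      exact hi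
    · rw [(h i j).2.2]
      exact hj
  have hone : Θ ^ (m * i * a + n * j * b) = 1 := by
    have h1 : ρ (w ^ a * z ^ b) = w ^ a * z ^ b :=
      hρ _ (subset_adjoin _ _ (Or.inr (Set.mem_singleton_iff.2 hy.symm)))
    have h2 : ρ (w ^ a * z ^ b) =
        algebraMap Ω K (Θ ^ (m * i * a + n * j * b)) * (w ^ a * z ^ b) := by
      rw [map_mul, map_pow, map_pow, hi, hj, mul_pow, mul_pow, ← map_pow, ← map_pow, ← pow_mul,
        ← pow_mul, pow_add, map_mul]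
      ring
    rw [h1] at h2
    have h3 : algebraMap Ω K 1 * (w ^ a * z ^ b) =
        algebraMap Ω K (Θ ^ (m * i * a + n * j * b)) * (w ^ a * z ^ b) := by
      rw [map_one, one_mul]
      exact h2
    rw [hy] at hy0
    exact ((algebraMap Ω K).injective (mul_right_cancel₀ hy0 h3)).symm
  have hdvd := hΘ.dvd_of_pow_eq_one _ hone
  rw [hρe, tmap_mul, Module.End.mul_apply, tmap_pow, tmap_pow, pow_eig _ hη, map_smul,
    pow_eig _ hξ, smul_smul, ← pow_mul, ← pow_mul, ← pow_mul, ← pow_mul, ← pow_add]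
  obtain ⟨c, hc⟩ := hdvd
  have h8 : n * b * j + m * a * i = n * m * c := by
    rw [← hc]
    ring
  simp only [← mul_assoc]
  rw [h8, pow_mul, hθ.pow_eq_one, one_pow, one_smul]

end Pool.Agent.Helper75.TC
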