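import Pool.Agent.Helper75.TC.Data

/-! Block TC-2. Two conics: the threefold `v (1 - v)^(m-1) = s^(2m) f g^(m-1)` is uniruled.

In `E = AlgebraicClosure N`: `v`, `1 - v`, `s`, `g(x, y)` are not zero. Let
`ρ = (1 - v) / (g s^2)`, `r = 1 / s`: then `ρ g + ρ^(1-m) f = (1 - v) / s^2 + v / s^2 = r^2`
(write `ρ^(m-1)` in the denominator: `f / ρ^(m-1) = f g^(m-1) s^(2(m-1)) / (1 - v)^(m-1)`). So
`r^2 = G(x, y)`, `G = ρ g + ρ^(-(m-1)) f` of degree `≤ 2` over `AF Ω {ρ}` (algebraically closed,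
instance in Helper40/SD/Gen): `uni_surface` (Helper75/QC/UniC) over this field, then `up`.
`s = 1 / r`, `v = 1 - ρ g s^2`. -/

set_option autoImplicit false

namespace Pool.Agent.Helper75.TC

open IntermediateField Pool.Agent.Helper75.QC

theorem uni_conics {Ω N : Type} [Field Ω] [IsAlgClosed Ω] (h2 : (2 : Ω) ≠ 0) [Field N]
    [Algebra Ω N] (f g : MvPolynomial (Fin 2) Ω) (hf : f.totalDegree ≤ 2) (hg : g.totalDegree ≤ 2)
    {m : ℕ} (hm : 0 < m) (x y v s : N) (hg0 : val g x y ≠ 0) (hv : v ≠ 0) (hv1 : 1 - v ≠ 0)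
    (hs : v * (1 - v) ^ (m - 1) = s ^ (2 * m) * (val f x y * val g x y ^ (m - 1))) :
    Uniruled Ω (adjoin Ω {x, y, v, s} : IntermediateField Ω N) 3 := by
  classical
  let E := AlgebraicClosure N
  let ι : N →ₐ[Ω] E := IsScalarTower.toAlgHom Ω N E
  have hι : Function.Injective ι := ι.toRingHom.injective
  have h2E : (2 : E) ≠ 0 := by
    intro h
    apply h2
    apply (algebraMap Ω E).injective
    rw [map_ofNat, map_zero]
    exact h
  have hg0' : val g (ι x) (ι y) ≠ 0 := by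
    rw [← map_val]
    exact fun h => hg0 (hι (h.trans (map_zero ι).symm))
  have hv' : ι v ≠ 0 := fun h => hv (hι (h.trans (map_zero ι).symm))
  have hv1' : 1 - ι v ≠ 0 := by
    intro h
    apply hv1
    apply hι
    rw [map_sub, map_one, map_zero]
    exact h
  have hs' : ι v * (1 - ι v) ^ (m - 1) = ι s ^ (2 * m) *
      (val f (ι x) (ι y) * val g (ι x) (ι y) ^ (m - 1)) := by
    have h := congrArg ι hs
    simp only [map_mul, map_pow, map_sub, map_one, map_val] at h
    exact h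
  have hs0 : ι s ≠ 0 := by
    intro h
    rw [h, zero_pow (by omega), zero_mul] at hs'
    exact (mul_ne_zero hv' (pow_ne_zero _ hv1')) hs'
  set x' := ι x with hx'
  set y' := ι y with hy'
  set v' := ι v with hv''
  set s' := ι s with hs''
  set g' := val g x' y' with hg'
  set f' := val f x' y' with hf'
  set ρ := (1 - v') / (g' * s' ^ 2) with hρ
  have hρ0 : ρ ≠ 0 := div_ne_zero hv1' (mul_ne_zero hg0' (pow_ne_zero _ hs0))
  have hρm : ρ ∈ AF Ω {ρ} := subset_AF _ rfl
  let c : AF Ω {ρ} := ⟨ρ, hρm⟩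
  let G : MvPolynomial (Fin 2) (AF Ω {ρ}) :=
    MvPolynomial.C c * MvPolynomial.map (algebraMap Ω (AF Ω {ρ})) g +
      MvPolynomial.C (c ^ (m - 1))⁻¹ * MvPolynomial.map (algebraMap Ω (AF Ω {ρ})) f
  have hG : G.totalDegree ≤ 4 := by
    have h1 : ∀ (a : AF Ω {ρ}) (p : MvPolynomial (Fin 2) Ω), p.totalDegree ≤ 2 →
        (MvPolynomial.C a * MvPolynomial.map (algebraMap Ω (AF Ω {ρ})) p).totalDegree ≤ 4 := by
      intro a p hp
      refine (MvPolynomial.totalDegree_mul _ _).trans ?_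
      rw [MvPolynomial.totalDegree_C, zero_add]
      have h0 : (MvPolynomial.map (algebraMap Ω (AF Ω {ρ})) p).totalDegree ≤ p.totalDegree := by
        unfold MvPolynomial.totalDegree
        exact Finset.sup_mono (MvPolynomial.support_map_subset _ _)
      exact (h0.trans hp).trans (by norm_num)
    exact (MvPolynomial.totalDegree_add _ _).trans (max_le (h1 _ _ hg) (h1 _ _ hf))
  have hval : MvPolynomial.aeval ![x', y'] G = ρ * g' + (ρ ^ (m - 1))⁻¹ * f' := by
    simp only [G, map_add, map_mul, MvPolynomial.aeval_C, MvPolynomial.aeval_map_algebraMap]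
    rfl
  have hr : (1 / s') ^ 2 = MvPolynomial.aeval ![x', y'] G := by
    rw [hval]
    have e1 : ρ * g' = (1 - v') / s' ^ 2 := by
      rw [hρ, div_mul_eq_mul_div, div_eq_div_iff (mul_ne_zero hg0' (pow_ne_zero _ hs0))
        (pow_ne_zero _ hs0)]
      ring
    have e2 : (ρ ^ (m - 1))⁻¹ * f' = v' / s' ^ 2 := by
      obtain ⟨k, rfl⟩ : ∃ k, m = k + 1 := ⟨m - 1, by omega⟩
      simp only [Nat.add_sub_cancel] at hs' ⊢
      rw [hρ, div_pow, inv_div, div_mul_eq_mul_div, div_eq_div_iff (pow_ne_zero _ hv1')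
        (pow_ne_zero _ hs0)]
      rw [hs']
      ring
    rw [e1, e2, ← add_div, sub_add_cancel, div_pow, one_pow]
  obtain ⟨S, θ, hS, m1, m2, m3⟩ := uni_surface (Ω := AF Ω {ρ}) h2E G hG x' y' (1 / s') hr
  have k1 := up ρ (S : Set E) θ x' m1
  have k2 := up ρ (S : Set E) θ y' m2
  have k3 := up ρ (S : Set E) θ (1 / s') m3
  have hT : ((insert ρ S : Finset E) : Set E) = {ρ} ∪ (S : Set E) := by
    rw [Finset.coe_insert]
    rfl
  set T := adjoin Ω (Acl Ω ({ρ} ∪ (S : Set E)) ∪ {θ}) with hTd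
  have k4 : ρ ∈ T := subset_adjoin _ _ (Or.inl (mem_AF.1 (subset_AF _ (Or.inl rfl))))
  have k5 : s' ∈ T := by
    have h := inv_mem k3
    rwa [one_div, inv_inv] at h
  have k6 : v' ∈ T := by
    have h : v' = 1 - ρ * g' * s' ^ 2 := by
      have h1 : ρ * (g' * s' ^ 2) = 1 - v' :=
        div_mul_cancel₀ _ (mul_ne_zero hg0' (pow_ne_zero _ hs0))
      linear_combination h1
    rw [h]
    exact sub_mem (one_mem _) (mul_mem (mul_mem k4 (val_mem g T k1 k2)) (pow_mem k5 2))
  have hle : adjoin Ω {x, y, v, s} ≤ T.comap ι := by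
    rw [adjoin_le_iff]
    intro a ha
    simp only [Set.mem_insert_iff, Set.mem_singleton_iff] at ha
    rcases ha with rfl | rfl | rfl | rfl
    · exact k1
    · exact k2
    · exact k6
    · exact k5
  refine ⟨E, inferInstance, inferInstance, ι.comp (adjoin Ω {x, y, v, s}).val, insert ρ S, θ,
    ?_, ?_⟩
  · have := Finset.card_insert_le ρ S
    omega
  · intro k
    rw [hT]
    exact hle k.2

end Pool.Agent.Helper75.TC
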