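import Pool.Agent.Helper75.TC.Data

/-! A quartic and a line: a change of coordinates to the case `ℓ = 1` (after helper12, FormA.lean). -/

set_option autoImplicit false

namespace Pool.Agent.Helper75.TC

open IntermediateField Pool.Agent.Helper75.QC

private theorem lin12 {Ω : Type} [Field Ω] (ℓ : MvPolynomial (Fin 2) Ω) (hℓ : ℓ.totalDegree ≤ 1) :
    ∃ α β γ : Ω, ∀ (K : Type) [Field K] [Algebra Ω K] (x y : K),
      val ℓ x y = algebraMap Ω K α * x + algebraMap Ω K β * y + algebraMap Ω K γ := by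
  classical
  have h1 : ∀ d ∈ ℓ.support, d = Finsupp.single 0 (d 0) + Finsupp.single 1 (d 1) ∧
      d 0 + d 1 ≤ 1 := by
    intro d hd
    constructor
    · ext i
      fin_cases i <;> simp
    · have := MvPolynomial.le_totalDegree hd
      rw [Finsupp.sum_fintype _ _ (by simp), Fin.sum_univ_two] at this
      omega
  refine ⟨ℓ.coeff (Finsupp.single 0 1), ℓ.coeff (Finsupp.single 1 1), ℓ.coeff 0, fun K _ _ x y => ?_⟩
  have hs : ℓ.support ⊆ {Finsupp.single 0 1, Finsupp.single 1 1, 0} := by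
    intro d hd
    obtain ⟨h2, h3⟩ := h1 d hd
    have h4 : (d 0 = 1 ∧ d 1 = 0) ∨ (d 0 = 0 ∧ d 1 = 1) ∨ (d 0 = 0 ∧ d 1 = 0) := by omega
    rcases h4 with h | h | h
    · rw [h.1, h.2, Finsupp.single_zero, add_zero] at h2
      rw [h2]
      simp
    · rw [h.1, h.2, Finsupp.single_zero, zero_add] at h2
      rw [h2]
      simp
    · rw [h.1, h.2, Finsupp.single_zero, Finsupp.single_zero, add_zero] at h2
      rw [h2]
      simp
  have n1 : (Finsupp.single 0 1 : Fin 2 →₀ ℕ) ≠ Finsupp.single 1 1 := by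
    intro h
    have := DFunLike.congr_fun h 0
    simp at this
  have n2 : (Finsupp.single 0 1 : Fin 2 →₀ ℕ) ≠ 0 := by
    intro h
    have := DFunLike.congr_fun h 0
    simp at this
  have n3 : (Finsupp.single 1 1 : Fin 2 →₀ ℕ) ≠ 0 := by
    intro h
    have := DFunLike.congr_fun h 1
    simp at this
  unfold val
  rw [MvPolynomial.aeval_def, MvPolynomial.eval₂_eq', Finset.sum_subset hs (fun d _ hd => by
    rw [MvPolynomial.notMem_support_iff.1 hd]; simp), Finset.sum_insert (by simp [n1, n2]),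
    Finset.sum_insert (by simp [n3]), Finset.sum_singleton]
  simp [Fin.prod_univ_two, add_assoc]

/-- the substitution `x = ((1 - β y' - γ x') / α) / x'`, `y = y' / x'` -/
private theorem subst12 {Ω : Type} [Field Ω] (f : MvPolynomial (Fin 2) Ω) (hf : f.totalDegree ≤ 4)
    {α : Ω} (β γ : Ω) (hα : α ≠ 0) :
    ∃ g : MvPolynomial (Fin 2) Ω, g.totalDegree ≤ 4 ∧
      ∀ (K : Type) [Field K] [Algebra Ω K] (x y Λ : K), Λ ≠ 0 →
      Λ = algebraMap Ω K α * x + algebraMap Ω K β * y + algebraMap Ω K γ →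
      val g Λ⁻¹ (y * Λ⁻¹) * Λ ^ 4 = val f x y := by
  obtain ⟨c, hc⟩ := exists_Fv f hf
  refine ⟨∑ i ∈ Finset.range 5, ∑ j ∈ Finset.range (5 - i), MvPolynomial.C (c i j) *
    (MvPolynomial.C α⁻¹ * (1 - MvPolynomial.C β * MvPolynomial.X 1 -
      MvPolynomial.C γ * MvPolynomial.X 0)) ^ i * MvPolynomial.X 1 ^ j *
      MvPolynomial.X 0 ^ (4 - i - j), ?_, ?_⟩
  · have hX : ∀ k : Fin 2, (MvPolynomial.X k : MvPolynomial (Fin 2) Ω).totalDegree ≤ 1 := fun k =>
      (MvPolynomial.totalDegree_X k).le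
    have hCX : ∀ (a : Ω) (k : Fin 2),
        (MvPolynomial.C a * MvPolynomial.X k : MvPolynomial (Fin 2) Ω).totalDegree ≤ 1 := fun a k =>
      (MvPolynomial.totalDegree_mul _ _).trans (by
        rw [MvPolynomial.totalDegree_C, zero_add]
        exact hX k)
    have hL : (MvPolynomial.C α⁻¹ * (1 - MvPolynomial.C β * MvPolynomial.X 1 -
        MvPolynomial.C γ * MvPolynomial.X 0) : MvPolynomial (Fin 2) Ω).totalDegree ≤ 1 := by
      refine (MvPolynomial.totalDegree_mul _ _).trans ?_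
      rw [MvPolynomial.totalDegree_C, zero_add]
      refine (MvPolynomial.totalDegree_sub _ _).trans (max_le ?_ (hCX _ _))
      refine (MvPolynomial.totalDegree_sub _ _).trans (max_le ?_ (hCX _ _))
      rw [MvPolynomial.totalDegree_one]
      exact Nat.zero_le _
    refine MvPolynomial.totalDegree_finsetSum_le fun i hi => ?_
    refine MvPolynomial.totalDegree_finsetSum_le fun j hj => ?_
    rw [Finset.mem_range] at hi hj
    have a1 : ((MvPolynomial.C α⁻¹ * (1 - MvPolynomial.C β * MvPolynomial.X 1 -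
        MvPolynomial.C γ * MvPolynomial.X 0)) ^ i : MvPolynomial (Fin 2) Ω).totalDegree ≤ i := by
      refine (MvPolynomial.totalDegree_pow _ _).trans ?_
      calc i * _ ≤ i * 1 := Nat.mul_le_mul_left i hL
        _ = i := mul_one i
    have a2 : ((MvPolynomial.X 1 : MvPolynomial (Fin 2) Ω) ^ j).totalDegree ≤ j := by
      refine (MvPolynomial.totalDegree_pow _ _).trans ?_
      calc j * _ ≤ j * 1 := Nat.mul_le_mul_left j (hX 1)
        _ = j := mul_one j
    have a3 : ((MvPolynomial.X 0 : MvPolynomial (Fin 2) Ω) ^ (4 - i - j)).totalDegree ≤ 4 - i - j := by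
      refine (MvPolynomial.totalDegree_pow _ _).trans ?_
      calc (4 - i - j) * _ ≤ (4 - i - j) * 1 := Nat.mul_le_mul_left _ (hX 0)
        _ = 4 - i - j := mul_one _
    have b1 := MvPolynomial.totalDegree_mul (MvPolynomial.C (c i j))
      ((MvPolynomial.C α⁻¹ * (1 - MvPolynomial.C β * MvPolynomial.X 1 -
        MvPolynomial.C γ * MvPolynomial.X 0)) ^ i : MvPolynomial (Fin 2) Ω)
    have b2 := MvPolynomial.totalDegree_mul (MvPolynomial.C (c i j) *
      (MvPolynomial.C α⁻¹ * (1 - MvPolynomial.C β * MvPolynomial.X 1 -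
        MvPolynomial.C γ * MvPolynomial.X 0)) ^ i) ((MvPolynomial.X 1 : MvPolynomial (Fin 2) Ω) ^ j)
    have b3 := MvPolynomial.totalDegree_mul (MvPolynomial.C (c i j) *
      (MvPolynomial.C α⁻¹ * (1 - MvPolynomial.C β * MvPolynomial.X 1 -
        MvPolynomial.C γ * MvPolynomial.X 0)) ^ i * (MvPolynomial.X 1 : MvPolynomial (Fin 2) Ω) ^ j)
      ((MvPolynomial.X 0 : MvPolynomial (Fin 2) Ω) ^ (4 - i - j))
    rw [MvPolynomial.totalDegree_C] at b1
    omega
  · intro K _ _ x y Λ hΛ hΛe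
    have hα' : algebraMap Ω K α ≠ 0 := by
      rw [Ne, FaithfulSMul.algebraMap_eq_zero_iff]
      exact hα
    have e1 : algebraMap Ω K α⁻¹ * (1 - algebraMap Ω K β * (y * Λ⁻¹) - algebraMap Ω K γ * Λ⁻¹) =
        x * Λ⁻¹ := by
      rw [map_inv₀]
      field_simp
      rw [hΛe]
      ring
    show MvPolynomial.aeval ![Λ⁻¹, y * Λ⁻¹] _ * Λ ^ 4 = MvPolynomial.aeval ![x, y] f
    rw [hc K x y]
    unfold Fv
    simp only [map_sum, map_mul, map_pow, map_sub, map_one, MvPolynomial.aeval_C, MvPolynomial.aeval_X,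
      Matrix.cons_val_zero, Matrix.cons_val_one, Finset.sum_mul]
    refine Finset.sum_congr rfl fun i hi => Finset.sum_congr rfl fun j hj => ?_
    rw [Finset.mem_range] at hi hj
    rw [e1]
    obtain ⟨k, hk⟩ : ∃ k, k = 4 - i - j := ⟨_, rfl⟩
    have hk4 : i + j + k = 4 := by omega
    rw [← hk, ← hk4, mul_pow, mul_pow, pow_add, pow_add, inv_pow, inv_pow, inv_pow]
    field_simp

/-- `ℓ = α x + β y + γ`, `α ≠ 0` -/
private theorem coord12 {Ω : Type} [Field Ω] (f : MvPolynomial (Fin 2) Ω)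
    (hf : f.totalDegree ≤ 4) {α : Ω} (β γ : Ω) (hα : α ≠ 0) {K : Type} [Field K] [Algebra Ω K]
    (x y Λ : K) (hΛ : Λ ≠ 0)
    (hΛe : Λ = algebraMap Ω K α * x + algebraMap Ω K β * y + algebraMap Ω K γ) :
    ∃ (x' y' : K) (g : MvPolynomial (Fin 2) Ω), g.totalDegree ≤ 4 ∧
      x' ∈ Subfield.closure {x, y, Λ} ∧ y' ∈ Subfield.closure {x, y, Λ} ∧
      adjoin Ω {x', y'} = adjoin Ω {x, y} ∧ val g x' y' * Λ ^ 4 = val f x y := by
  obtain ⟨g, hg, hval⟩ := subst12 f hf β γ hα
  have hα' : algebraMap Ω K α ≠ 0 := by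
    rw [Ne, FaithfulSMul.algebraMap_eq_zero_iff]
    exact hα
  have ex : x = algebraMap Ω K α⁻¹ * (1 - algebraMap Ω K β * (y * Λ⁻¹) - algebraMap Ω K γ * Λ⁻¹) *
      (Λ⁻¹)⁻¹ := by
    rw [map_inv₀]
    field_simp
    rw [hΛe]
    ring
  have ey : y = (y * Λ⁻¹) * (Λ⁻¹)⁻¹ := by
    field_simp
  have hmem : ∀ M : IntermediateField Ω K, Λ⁻¹ ∈ M → y * Λ⁻¹ ∈ M → x ∈ M ∧ y ∈ M := by
    intro M hu hv
    constructor
    · rw [ex]
      exact mul_mem (mul_mem (M.algebraMap_mem _) (sub_mem (sub_mem (one_mem _)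
        (mul_mem (M.algebraMap_mem _) hv)) (mul_mem (M.algebraMap_mem _) hu))) (inv_mem hu)
    · rw [ey]
      exact mul_mem hv (inv_mem hu)
  have hadj : adjoin Ω {Λ⁻¹, y * Λ⁻¹} = adjoin Ω {x, y} := by
    apply le_antisymm
    · have hx : x ∈ adjoin Ω {x, y} := subset_adjoin _ _ (by simp)
      have hy : y ∈ adjoin Ω {x, y} := subset_adjoin _ _ (by simp)
      have hl : Λ ∈ adjoin Ω {x, y} := by
        rw [hΛe]
        exact add_mem (add_mem (mul_mem (IntermediateField.algebraMap_mem _ _) hx)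
          (mul_mem (IntermediateField.algebraMap_mem _ _) hy)) (IntermediateField.algebraMap_mem _ _)
      rw [adjoin_le_iff]
      rintro s (rfl | rfl)
      · exact inv_mem hl
      · exact mul_mem hy (inv_mem hl)
    · have h := hmem (adjoin Ω {Λ⁻¹, y * Λ⁻¹}) (subset_adjoin _ _ (by simp))
        (subset_adjoin _ _ (by simp))
      rw [adjoin_le_iff]
      rintro s (rfl | rfl)
      · exact h.1
      · exact h.2
  have hc : Λ⁻¹ ∈ Subfield.closure {x, y, Λ} := inv_mem (Subfield.subset_closure (by simp))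
  exact ⟨Λ⁻¹, y * Λ⁻¹, g, hg, hc, mul_mem (Subfield.subset_closure (by simp)) hc, hadj,
    hval K x y Λ hΛ hΛe⟩

private theorem swap12 {Ω : Type} [Field Ω] (f : MvPolynomial (Fin 2) Ω) {K : Type} [Field K]
    [Algebra Ω K] (x y : K) : val (MvPolynomial.rename ![1, 0] f) y x = val f x y := by
  unfold val
  rw [MvPolynomial.aeval_rename]
  congr 2
  funext i
  fin_cases i <;> rfl

/-- **A quartic and a line.** In suitable coordinates `f / ℓ^4` is a polynomial of degree `≤ 4`. -/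
theorem coord_A {Ω : Type} [Field Ω] (f ℓ : MvPolynomial (Fin 2) Ω)
    (hf : f.totalDegree ≤ 4) (hℓ : ℓ.totalDegree ≤ 1) {K : Type} [Field K] [Algebra Ω K]
    (x y : K) (hℓ0 : val ℓ x y ≠ 0) :
    ∃ (x' y' : K) (g : MvPolynomial (Fin 2) Ω), g.totalDegree ≤ 4 ∧
      x' ∈ Subfield.closure {x, y, val ℓ x y} ∧ y' ∈ Subfield.closure {x, y, val ℓ x y} ∧
      adjoin Ω {x', y'} = adjoin Ω {x, y} ∧ val g x' y' * val ℓ x y ^ 4 = val f x y := by
  obtain ⟨α, β, γ, hlin⟩ := lin12 ℓ hℓ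
  have hΛe := hlin K x y
  by_cases hα : α = 0
  · by_cases hβ : β = 0
    · rw [hα, hβ, map_zero, zero_mul, zero_mul, add_zero, zero_add] at hΛe
      refine ⟨x, y, MvPolynomial.C (γ ^ 4)⁻¹ * f, ?_, Subfield.subset_closure (by simp),
        Subfield.subset_closure (by simp), rfl, ?_⟩
      · refine (MvPolynomial.totalDegree_mul _ _).trans ?_
        rw [MvPolynomial.totalDegree_C, zero_add]
        exact hf
      · rw [hΛe] at hℓ0 ⊢
        unfold val
        rw [map_mul, MvPolynomial.aeval_C, map_inv₀, map_pow]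
        field_simp
    · obtain ⟨x', y', g, h1, h2, h3, h4, h5⟩ := coord12 (MvPolynomial.rename ![1, 0] f)
        ((MvPolynomial.totalDegree_rename_le _ _).trans hf) α γ hβ y x (val ℓ x y) hℓ0
        (by rw [hΛe]; ring)
      refine ⟨x', y', g, h1, ?_, ?_, ?_, ?_⟩
      · rw [Set.insert_comm]
        exact h2
      · rw [Set.insert_comm]
        exact h3
      · rw [h4, Set.pair_comm]
      · rw [h5, swap12]
  · exact coord12 f hf β γ hα x y (val ℓ x y) hℓ0 hΛe

end Pool.Agent.Helper75.TC
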