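import Pool.Agent.Helper35.TD.Target
import Pool.Agent.Helper75.TC.Dom

/-! Project TC: the result, assembled from the blocks. -/

set_option autoImplicit false

namespace Pool.Agent.Helper75.TC

open IntermediateField Pool.Agent.Helper75.QC Pool.Agent.Helper35.TD

/-- the case of an exponent prime to the characteristic -/
theorem tame_final {p : ℕ} [Fact p.Prime] {Ω L : Type} [Field Ω] [CharP Ω p]
    [IsAlgClosed Ω] [Field L] [CharZero L] [IsAlgClosed L] (T : Theory p Ω L) {n e : ℕ}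
    (hn : 0 < n) (hn' : (n : Ω) ≠ 0) {K : Type} [Field K] [Algebra Ω K] (x y w : K)
    (φ : K →ₐ[Ω] K) (hC : Cover (p ^ e) n x y w φ) (f g h : MvPolynomial (Fin 2) Ω)
    (hf : Over (p ^ e) f) (hg : Over (p ^ e) g) (hh : Over (p ^ e) h) (a b c : ℕ)
    (H : Branch n f g h a b c)
    (hw : w ^ n = val f x y ^ a * val g x y ^ b * val h x y ^ c) :
    Module.End.IsSemisimple (T.map 2 φ) := by
  obtain ⟨x', hx', y', hy', w', hw', hI⟩ := target T.toBaseTheory hn hn' x y w hC.gen hC.deg f g h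
    a b c H hw {x, y, w, val f x y, val g x y, val h x y} (by simp) (by simp) (by simp) (by simp)
    (by simp)
  have hS : ∀ s ∈ ({x, y, w, val f x y, val g x y, val h x y} : Set K), φ s = s ^ p ^ e := by
    rintro s (rfl | rfl | rfl | rfl | rfl | rfl)
    · exact hC.frx
    · exact hC.fry
    · exact hC.frw
    · exact frob_val φ hC.frx hC.fry hf
    · exact frob_val φ hC.frx hC.fry hg
    · exact frob_val φ hC.frx hC.fry hh
  have h1 := frob_closure φ _ hS
  exact hI.frob hn hn' φ ⟨h1 x' hx', h1 y' hy', h1 w' hw'⟩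

/-- all exponents -/
theorem generic {p : ℕ} [Fact p.Prime] {Ω L : Type} [Field Ω] [CharP Ω p] [IsAlgClosed Ω]
    [Field L] [CharZero L] [IsAlgClosed L] (T : Theory p Ω L) {n e : ℕ} (hn : 0 < n) (he : 0 < e)
    (f g h : MvPolynomial (Fin 2) Ω) (hf : Over (p ^ e) f) (hg : Over (p ^ e) g)
    (hh : Over (p ^ e) h) (a b c : ℕ) (H : Branch n f g h a b c) {K : Type} [Field K]
    [Algebra Ω K] (x y w : K) (φ : K →ₐ[Ω] K) (hC : Cover (p ^ e) n x y w φ)
    (hw : w ^ n = val f x y ^ a * val g x y ^ b * val h x y ^ c) :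
    Module.End.IsSemisimple (T.map 2 φ) := by
  have hwF : w ^ n ∈ adjoin Ω {x, y} := by
    have hx : x ∈ adjoin Ω {x, y} := subset_adjoin _ _ (by simp)
    have hy : y ∈ adjoin Ω {x, y} := subset_adjoin _ _ (by simp)
    rw [hw]
    exact mul_mem (mul_mem (pow_mem (val_mem f _ hx hy) _) (pow_mem (val_mem g _ hx hy) _))
      (pow_mem (val_mem h _ hx hy) _)
  refine insep_gen T hn he x y w hC.gen hwF hC.deg φ ⟨hC.frx, hC.fry, hC.frw⟩ ?_
  intro m n' hnn hn0 hcast K1 x1 y1 w1 hx hy hw1 htop hdeg1 φ1 hφ1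
  refine tame_final T hn0 hcast x1 y1 w1 φ1 ⟨htop, hdeg1, hφ1.1, hφ1.2.1, hφ1.2.2⟩ f g h hf hg hh
    a b c (Branch.of_dvd H (Dvd.intro_left (p ^ m) hnn.symm)) ?_
  apply Subtype.ext
  have h3 : K1.val (val f x1 y1 ^ a * val g x1 y1 ^ b * val h x1 y1 ^ c) =
      val f x y ^ a * val g x y ^ b * val h x y ^ c := by
    have hx' : K1.val x1 = x := hx
    have hy' : K1.val y1 = y := hy
    rw [map_mul, map_mul, map_pow, map_pow, map_pow, map_val, map_val, map_val, hx', hy']
  show (w1 : K) ^ n' = K1.val (val f x1 y1 ^ a * val g x1 y1 ^ b * val h x1 y1 ^ c)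
  rw [h3, ← hw, hw1, hnn, pow_mul]

/-- every surface which is dominated by a cyclic cover of the plane branched along two curves of
total degree at most five or along three conics: `K0` is the function field of the surface, `Fr`
Frobenius over the field with `p ^ e` elements on its second cohomology `V`; the cover and the
dominant map are defined over the field with `p ^ (e * m)` elements -/
theorem final {p : ℕ} [Fact p.Prime] {Ω L : Type} [Field Ω] [CharP Ω p] [IsAlgClosed Ω] [Field L]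
    [CharZero L] [IsAlgClosed L] (T : Theory p Ω L) {n e m : ℕ} (hn : 0 < n) (he : 0 < e)
    (hm : 0 < m) (f g h : MvPolynomial (Fin 2) Ω) (hf : Over (p ^ (e * m)) f)
    (hg : Over (p ^ (e * m)) g) (hh : Over (p ^ (e * m)) h) (a b c : ℕ)
    (H : Branch n f g h a b c) {K : Type} [Field K] [Algebra Ω K] (x y w : K) (φ : K →ₐ[Ω] K)
    (hC : Cover (p ^ (e * m)) n x y w φ)
    (hw : w ^ n = val f x y ^ a * val g x y ^ b * val h x y ^ c)
    {K0 : Type} [Field K0] [Algebra Ω K0] (j : K0 →ₐ[Ω] K) (hj : ∀ k : K, IsAlgebraic j.fieldRange k)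
    (φ0 : K0 →ₐ[Ω] K0) (h0 : IsFrob (p ^ e) φ0) (hφ : ∀ k, j ((φ0 ^ m) k) = φ (j k))
    {V : Type} [AddCommGroup V] [Module L V] (Fr : Module.End L V) (r : V →ₗ[L] T.H 2 K0)
    (hV : IsH2 T (p ^ e) φ0 Fr r) : Fr.IsSemisimple := by
  have h1 := generic T hn (Nat.mul_pos he hm) f g h hf hg hh a b c H x y w φ hC hw
  have hfg : (⊤ : IntermediateField Ω K).FG := by
    rw [← hC.gen]
    exact fg_adjoin_of_finite (Set.toFinite _)
  have h2 := semisimple_of_dom T hfg j hj hm φ0 φ h0 hφ h1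
  obtain ⟨k, hk, hk'⟩ := hV.classes
  refine semisimple_of_parts Fr (T.map 2 φ0) r hV.comm h2 ((p ^ e : ℕ) : L) ?_ hk hk' hV.compl
  exact_mod_cast pow_ne_zero _ (Fact.out : p.Prime).ne_zero

end Pool.Agent.Helper75.TC
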