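import Pool.Agent.Helper75.TC.Data

/-! Block TC-4 (helper40). A cubic and a conic: `w^n g^3 = f^2`; kernel curve `u^n = v (1 - v)^2`. -/

set_option autoImplicit false

namespace Pool.Agent.Helper75.TC

open IntermediateField Pool.Agent.Helper75.QC

theorem form_B {p : ℕ} [Fact p.Prime] {Ω L : Type} [Field Ω] [CharP Ω p] [IsAlgClosed Ω]
    [Field L] [CharZero L] [IsAlgClosed L] (T : Theory p Ω L) (f g : MvPolynomial (Fin 2) Ω)
    (hf : f.totalDegree ≤ 3) (hg : g.totalDegree ≤ 2) {n e : ℕ} (hn : 0 < n)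
    (hn' : (n : Ω) ≠ 0) {K : Type} [Field K] [Algebra Ω K] (x y w : K)
    (φ : K →ₐ[Ω] K) (hC : Cover (p ^ e) n x y w φ) (hw0 : w ≠ 0) (hg0 : val g x y ≠ 0)
    (hw : w ^ n * val g x y ^ 3 = val f x y ^ 2) :
    Module.End.IsSemisimple (T.map 2 φ) := by
  sorry

end Pool.Agent.Helper75.TC
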