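import Pool.Agent.Helper75.TC.Data

/-! Block TC-5 (helper40). A quintic: `w^5 = f`; kernel curve `u^5 = v (1 - v)`. -/

set_option autoImplicit false

namespace Pool.Agent.Helper75.TC

open IntermediateField Pool.Agent.Helper75.QC

theorem form_C {p : ℕ} [Fact p.Prime] {Ω L : Type} [Field Ω] [CharP Ω p] [IsAlgClosed Ω]
    [Field L] [CharZero L] [IsAlgClosed L] (T : Theory p Ω L) (f : MvPolynomial (Fin 2) Ω)
    (hf : f.totalDegree ≤ 5) {e : ℕ} (hn' : ((5 : ℕ) : Ω) ≠ 0) {K : Type} [Field K]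
    [Algebra Ω K] (x y w : K) (φ : K →ₐ[Ω] K) (hC : Cover (p ^ e) 5 x y w φ) (hw0 : w ≠ 0)
    (hw : w ^ 5 = val f x y) :
    Module.End.IsSemisimple (T.map 2 φ) := by
  sorry

end Pool.Agent.Helper75.TC
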