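import Pool.Agent.Helper75.TC.Conic2
import Pool.Agent.Helper75.TC.Conics

/-! Block TC-7. Two conics: `w^(2m) = f g^(m-1)`.

`form_E`: `tame_gen` with `β = m - 1`. `hexc`: `ξ^m = 1`: `eigen_zero_gen` with `n = m * 2`,
`Ω(x, y, w^2)`, `w1 = w^2 / g` satisfies `w1^m g = f` (`uni_pencil`). `ξ^(m-1) = 1`: then
`ξ^2 = ξ^(2m) = 1`; `n = 2 * m`, `Ω(x, y, w^m)`: `m` odd: `r = w^m / g^((m-1)/2)`, `r^2 = f`; `m`
even: `r = w^m / g^((m-2)/2)`, `r^2 = f g` (`uni_double75`). -/

set_option autoImplicit false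

namespace Pool.Agent.Helper75.TC

open IntermediateField Pool.Agent.Helper75.QC

/-- a subfield of a uniruled field -/
private theorem uni_mono56 {Ω K : Type} [Field Ω] [Field K] [Algebra Ω K]
    {M M' : IntermediateField Ω K} (h : M ≤ M') {i : ℕ} (h' : Uniruled Ω M' i) : Uniruled Ω M i :=
  Pool.Agent.Helper40.SD.uniruled_of_hom (IntermediateField.inclusion h) h'

private theorem adjoin_le56 {Ω K : Type} [Field Ω] [Field K] [Algebra Ω K] {x y a b : K}
    (h : a ∈ adjoin Ω {x, y, b}) : adjoin Ω {x, y, a} ≤ adjoin Ω {x, y, b} := by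
  rw [adjoin_le_iff]
  intro s hs
  simp only [Set.mem_insert_iff, Set.mem_singleton_iff] at hs
  rcases hs with rfl | rfl | rfl
  · exact subset_adjoin _ _ (by simp)
  · exact subset_adjoin _ _ (by simp)
  · exact h

theorem form_E {p : ℕ} [Fact p.Prime] {Ω L : Type} [Field Ω] [CharP Ω p] [IsAlgClosed Ω]
    [Field L] [CharZero L] [IsAlgClosed L] (T : Theory p Ω L) (f g : MvPolynomial (Fin 2) Ω)
    (hf : f.totalDegree ≤ 2) (hg : g.totalDegree ≤ 2) {m e : ℕ} (hm : 0 < m)
    (hn' : ((2 * m : ℕ) : Ω) ≠ 0) {K : Type} [Field K] [Algebra Ω K] (x y w : K) (φ : K →ₐ[Ω] K)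
    (hC : Cover (p ^ e) (2 * m) x y w φ) (hw0 : w ≠ 0) (hg0 : val g x y ≠ 0)
    (hw : w ^ (2 * m) = val f x y * val g x y ^ (m - 1)) :
    Module.End.IsSemisimple (T.map 2 φ) := by
  classical
  set F := val f x y with hF
  set G := val g x y with hG
  have hx : x ∈ adjoin Ω {x, y} := subset_adjoin _ _ (by simp)
  have hy : y ∈ adjoin Ω {x, y} := subset_adjoin _ _ (by simp)
  have h2 : (2 : Ω) ≠ 0 := by
    intro h
    apply hn'
    push_cast
    rw [h, zero_mul]
  have hn : 0 < 2 * m := by omega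
  have hwF : w ^ (2 * m) ∈ adjoin Ω {x, y} := by
    rw [hw]
    exact mul_mem (val_mem f _ hx hy) (pow_mem (val_mem g _ hx hy) _)
  have hmem : ∀ (p : MvPolynomial (Fin 2) Ω) (r : K), val p x y ∈ adjoin Ω {x, y, r} :=
    fun p r => val_mem p _ (subset_adjoin _ _ (by simp)) (subset_adjoin _ _ (by simp))
  have hr : ∀ r : K, r ∈ adjoin Ω {x, y, r} := fun r => subset_adjoin _ _ (by simp)
  refine tame_gen T (m - 1) hn hn' x y w hC.gen hw0 hwF hC.deg ?_ ?_ φ ⟨hC.frx, hC.fry, hC.frw⟩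
  · intro N _ _ h v s hv hs
    have e1 : val g (h x) (h y) ≠ 0 := by
      rw [← map_val]
      exact (map_ne_zero h).2 hg0
    have hv0 : v ≠ 0 := by
      rintro rfl
      exact hv isAlgebraic_zero
    have hv1 : 1 - v ≠ 0 := by
      intro h0
      have h1 : v = 1 := (sub_eq_zero.1 h0).symm
      rw [h1] at hv
      exact hv isAlgebraic_one
    refine uni_conics h2 f g hf hg hm (h x) (h y) v s e1 hv0 hv1 ?_
    rw [hs, ← map_pow, hw, map_mul, map_pow, map_val, map_val]
  · intro ζ σ hζ h1 h3 h4 ξ t hξn hξ ht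
    have hpow : ∀ k, (T.map 2 σ ^ k) t = ξ ^ k • t := by
      intro k
      induction k with
      | zero => simp
      | succ k ih => rw [pow_succ, Module.End.mul_apply, ht, map_smul, ih, smul_smul, pow_succ,
          mul_comm]
    rcases hξ with hξ | hξ
    · have hξ2 : ξ ^ 2 = 1 := by
        have e1 : ξ ^ (2 * m) = (ξ ^ (m - 1)) ^ 2 * ξ ^ 2 := by
          rw [← pow_mul, ← pow_add]
          congr 1
          omega
        rw [hξn, hξ, one_pow, one_mul] at e1
        exact e1.symm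
      refine eigen_zero_gen T.toBaseTheory hn hn' rfl hζ x y w hC.gen hw0 hwF σ ⟨h1, h3, h4⟩ ?_ t
        (by rw [hpow, hξ2, one_smul])
      obtain ⟨k, hk | hk⟩ : ∃ k, m - 1 = 2 * k ∨ m - 1 = 2 * k + 1 := by
        rcases Nat.even_or_odd' (m - 1) with ⟨k, hk⟩
        exact ⟨k, hk⟩
      · have e1 : (w ^ m / G ^ k) ^ 2 = MvPolynomial.aeval ![x, y] f := by
          have e2 : (w ^ m / G ^ k) ^ 2 = w ^ (2 * m) / G ^ (m - 1) := by
            rw [div_pow, ← pow_mul, ← pow_mul, hk, mul_comm m 2, mul_comm k 2]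
          rw [e2, hw, mul_div_assoc, div_self (pow_ne_zero _ hg0), mul_one]
          rfl
        have e3 := uni_double75 h2 f (hf.trans (by norm_num)) x y (w ^ m / G ^ k) e1
        refine uni_mono56 (adjoin_le56 ?_) e3
        have e5 : (w ^ m / G ^ k) * G ^ k ∈ adjoin Ω {x, y, w ^ m / G ^ k} :=
          mul_mem (hr _) (pow_mem (hmem g _) k)
        rwa [div_mul_cancel₀ _ (pow_ne_zero _ hg0)] at e5
      · have e1 : (w ^ m / G ^ k) ^ 2 = MvPolynomial.aeval ![x, y] (f * g) := by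
          have e2 : (w ^ m / G ^ k) ^ 2 = w ^ (2 * m) / G ^ (2 * k) := by
            rw [div_pow, ← pow_mul, ← pow_mul, mul_comm m 2, mul_comm k 2]
          rw [e2, hw, hk, pow_succ, map_mul, ← mul_assoc, mul_right_comm, mul_div_assoc,
            div_self (pow_ne_zero _ hg0), mul_one]
          rfl
        have e0 : (f * g).totalDegree ≤ 4 :=
          (MvPolynomial.totalDegree_mul _ _).trans (by omega)
        have e3 := uni_double75 h2 (f * g) e0 x y (w ^ m / G ^ k) e1
        refine uni_mono56 (adjoin_le56 ?_) e3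
        have e5 : (w ^ m / G ^ k) * G ^ k ∈ adjoin Ω {x, y, w ^ m / G ^ k} :=
          mul_mem (hr _) (pow_mem (hmem g _) k)
        rwa [div_mul_cancel₀ _ (pow_ne_zero _ hg0)] at e5
    · have hm1 : m - 1 + 1 = m := by omega
      rw [hm1] at hξ
      refine eigen_zero_gen T.toBaseTheory hn hn' (mul_comm 2 m) hζ x y w hC.gen hw0 hwF σ
        ⟨h1, h3, h4⟩ ?_ t (by rw [hpow, hξ, one_smul])
      have e1 : (w ^ 2 / G) ^ m * G = F := by
        have e2 : (w ^ 2 / G) ^ m * G = w ^ (2 * m) * G / G ^ m := by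
          rw [div_pow, ← pow_mul]
          ring
        rw [e2, hw, div_eq_iff (pow_ne_zero _ hg0)]
        conv_rhs => rw [← hm1, pow_succ, ← mul_assoc]
      have e3 := uni_pencil f g hf hg hm x y (w ^ 2 / G) hg0 e1
      refine uni_mono56 (adjoin_le56 ?_) e3
      have e5 : (w ^ 2 / G) * G ∈ adjoin Ω {x, y, w ^ 2 / G} := mul_mem (hr _) (hmem g _)
      rwa [div_mul_cancel₀ _ hg0] at e5

end Pool.Agent.Helper75.TC
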