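import Pool.Agent.Helper75.TC.Conic2

/-! Block TC-8 (helper40). Three conics: `w^n = f g^b h^c`, `n ∣ 1 + b + c`; kernel curve
`u^n = v (1 - v)^b`. -/

set_option autoImplicit false

namespace Pool.Agent.Helper75.TC

open IntermediateField Pool.Agent.Helper75.QC

theorem form_N {p : ℕ} [Fact p.Prime] {Ω L : Type} [Field Ω] [CharP Ω p] [IsAlgClosed Ω]
    [Field L] [CharZero L] [IsAlgClosed L] (T : Theory p Ω L) (f g h : MvPolynomial (Fin 2) Ω)
    (hf : f.totalDegree ≤ 2) (hg : g.totalDegree ≤ 2) (hh : h.totalDegree ≤ 2) {n e b c : ℕ}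
    (hn : 0 < n) (hn' : (n : Ω) ≠ 0) (hbc : n ∣ 1 + b + c) {K : Type} [Field K] [Algebra Ω K]
    (x y w : K) (φ : K →ₐ[Ω] K) (hC : Cover (p ^ e) n x y w φ) (hw0 : w ≠ 0)
    (hg0 : val g x y ≠ 0) (hh0 : val h x y ≠ 0)
    (hw : w ^ n = val f x y * val g x y ^ b * val h x y ^ c) :
    Module.End.IsSemisimple (T.map 2 φ) := by
  sorry

end Pool.Agent.Helper75.TC
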