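import Pool.Agent.Helper75.TC.Dom
import Pool.Agent.Helper35.TD.Form

/-! Relative Frobenius endomorphisms over an algebraic closure of the prime field. `Good T K`:
every relative Frobenius is semisimple on the second cohomology. -/

set_option autoImplicit false

namespace Pool.Agent.Helper75.TC

open IntermediateField Module Pool.Agent.Helper75.QC

variable {p : ℕ} [hpr : Fact p.Prime] {Ω L : Type} [Field Ω] [CharP Ω p] [Field L]

theorem pow_frob {K : Type} [Field K] [Algebra Ω K] {e k : ℕ} (φ : K →ₐ[Ω] K) {a : K}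
    (h : (φ ^ k) a = a ^ p ^ (e * k)) (j : ℕ) : (φ ^ (k * j)) a = a ^ p ^ (e * (k * j)) := by
  induction j with
  | zero => simp
  | succ j ih =>
    have h1 : φ ^ (k * (j + 1)) = φ ^ k * φ ^ (k * j) := by
      rw [← pow_add]
      congr 1
      ring
    rw [h1, AlgHom.mul_apply, ih, map_pow, h, ← pow_mul, ← pow_add]
    congr 2
    ring

theorem pow_frob' {K : Type} [Field K] [Algebra Ω K] {e k l : ℕ} (φ : K →ₐ[Ω] K) {a : K}
    (h : (φ ^ k) a = a ^ p ^ (e * k)) (hkl : k ∣ l) : (φ ^ l) a = a ^ p ^ (e * l) := by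
  obtain ⟨j, rfl⟩ := hkl
  exact pow_frob φ h j

/-- every element is raised to a power of `p ^ e` by a power of a relative Frobenius -/
theorem frob_elem (hΩ : ∀ c : Ω, ∃ k : ℕ, 0 < k ∧ c ^ p ^ k = c) {K : Type} [Field K]
    [Algebra Ω K] {e : ℕ} (φ : K →ₐ[Ω] K) (h : IsFrob (p ^ e) φ) (a : K) :
    ∃ k : ℕ, 0 < k ∧ (φ ^ k) a = a ^ p ^ (e * k) := by
  have hK : CharP K p := charP_of_injective_algebraMap (algebraMap Ω K).injective p
  have ha : a ∈ adjoin Ω {a : K | φ a = a ^ p ^ e} := by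
    have h1 : adjoin Ω {a : K | φ a = a ^ p ^ e} = ⊤ := h
    rw [h1]
    exact mem_top
  induction ha using adjoin_induction with
  | mem b hb =>
    refine ⟨1, one_pos, ?_⟩
    rw [pow_one, mul_one]
    exact hb
  | algebraMap c =>
    obtain ⟨k, hk, hc⟩ := hΩ c
    refine ⟨k, hk, ?_⟩
    rw [AlgHom.commutes, ← map_pow]
    congr 1
    have h1 : ∀ j : ℕ, c ^ p ^ (k * j) = c := by
      intro j
      induction j with
      | zero => simp
      | succ j ih => rw [Nat.mul_succ, pow_add, pow_mul, ih, hc]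
    rw [mul_comm, h1]
  | add a b _ _ ha hb =>
    obtain ⟨k, hk, h1⟩ := ha
    obtain ⟨l, hl, h2⟩ := hb
    refine ⟨k * l, Nat.mul_pos hk hl, ?_⟩
    rw [map_add, pow_frob' φ h1 (Dvd.intro _ rfl), pow_frob' φ h2 (Dvd.intro_left _ rfl),
      add_pow_char_pow]
  | inv a _ ha =>
    obtain ⟨k, hk, h1⟩ := ha
    exact ⟨k, hk, by rw [map_inv₀, h1, inv_pow]⟩
  | mul a b _ _ ha hb =>
    obtain ⟨k, hk, h1⟩ := ha
    obtain ⟨l, hl, h2⟩ := hb
    refine ⟨k * l, Nat.mul_pos hk hl, ?_⟩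
    rw [map_mul, pow_frob' φ h1 (Dvd.intro _ rfl), pow_frob' φ h2 (Dvd.intro_left _ rfl),
      mul_pow]

/-- finitely many elements -/
theorem frob_set (hΩ : ∀ c : Ω, ∃ k : ℕ, 0 < k ∧ c ^ p ^ k = c) {K : Type} [Field K]
    [Algebra Ω K] {e : ℕ} (φ : K →ₐ[Ω] K) (h : IsFrob (p ^ e) φ) (Q : Set K) (hQ : Q.Finite) :
    ∃ k : ℕ, 0 < k ∧ ∀ l, k ∣ l → ∀ a ∈ Q, (φ ^ l) a = a ^ p ^ (e * l) := by
  induction Q, hQ using Set.Finite.induction_on with
  | empty => exact ⟨1, one_pos, fun l _ a ha => absurd ha (Set.notMem_empty a)⟩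
  | insert _ _ ih =>
    rename_i b Q _ _
    obtain ⟨k, hk, h1⟩ := ih
    obtain ⟨l, hl, h2⟩ := frob_elem hΩ φ h b
    refine ⟨k * l, Nat.mul_pos hk hl, ?_⟩
    intro m hm a ha
    rcases Set.mem_insert_iff.1 ha with rfl | ha
    · exact pow_frob' φ h2 ((Dvd.intro_left _ rfl).trans hm)
    · exact h1 m ((Dvd.intro _ rfl).trans hm) a ha

/-- a relative Frobenius exists -/
theorem exists_frob (hΩ : ∀ c : Ω, ∃ k : ℕ, 0 < k ∧ c ^ p ^ k = c) [IsAlgClosed Ω] {K : Type}
    [Field K] [Algebra Ω K] (hK : (⊤ : IntermediateField Ω K).FG) :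
    ∃ (k : ℕ) (Φ : K →ₐ[Ω] K), 0 < k ∧ IsFrob (p ^ k) Φ := by
  classical
  have hp := hpr.out
  have hKc : CharP K p := charP_of_injective_algebraMap (algebraMap Ω K).injective p
  let iA : Algebra (ZMod p) Ω := ZMod.algebra Ω p
  have hint : Algebra.IsAlgebraic (ZMod p) Ω := by
    constructor
    intro c
    obtain ⟨k, hk, hc⟩ := hΩ c
    refine ⟨Polynomial.X ^ p ^ k - Polynomial.X, ?_, ?_⟩
    · exact FiniteField.X_pow_card_pow_sub_X_ne_zero (ZMod p) hk.ne' hp.one_lt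
    · rw [map_sub, Polynomial.aeval_X_pow, Polynomial.aeval_X, hc, sub_self]
  obtain ⟨Q, hQ⟩ := hK
  obtain ⟨s, hs⟩ : ∃ s : Fin Q.card → K, Set.range s = (Q : Set K) :=
    ⟨fun i => (Q.equivFin.symm i : K), by
      ext a
      constructor
      · rintro ⟨i, rfl⟩
        exact (Q.equivFin.symm i).2
      · intro ha
        exact ⟨Q.equivFin ⟨a, ha⟩, by simp⟩⟩
  obtain ⟨U, hU, γ, hγ⟩ := Pool.Agent.Helper35.TD.exists_form (F := ZMod p) s (by rw [hs, hQ])
  have hU1 : (U : Set (Ω ≃ₐ[ZMod p] Ω)) ∈ nhds (1 : Ω ≃ₐ[ZMod p] Ω) := hU.mem_nhds U.one_mem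
  obtain ⟨E, hE, hEU⟩ := (krullTopology_mem_nhds_one_iff _ _ _).1 hU1
  have : Finite E := Module.finite_of_finite (ZMod p)
  obtain ⟨k, hk, hE'⟩ : ∃ k : ℕ, 0 < k ∧ ∀ c : E, c ^ p ^ k = c := by
    have : Fintype E := Fintype.ofFinite E
    have : CharP E p := charP_of_injective_algebraMap (algebraMap (ZMod p) E).injective p
    obtain ⟨k, _, hk⟩ := FiniteField.card E p
    exact ⟨k, k.2, fun c => by rw [← hk, FiniteField.pow_card]⟩
  -- the inverse of the absolute Frobenius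
  let τ : Ω ≃ₐ[ZMod p] Ω := (FiniteField.frobeniusAlgEquivOfAlgebraic (ZMod p) Ω)⁻¹ ^ k
  have hτ : ∀ c : Ω, τ c ^ p ^ k = c := by
    intro c
    have h1 : ∀ (j : ℕ) (c : Ω), ((FiniteField.frobeniusAlgEquivOfAlgebraic (ZMod p) Ω) ^ j) c =
        c ^ p ^ j := by
      intro j c
      induction j with
      | zero => simp
      | succ j ih =>
        rw [pow_succ', AlgEquiv.mul_apply, ih]
        show (c ^ p ^ j) ^ Fintype.card (ZMod p) = _
        rw [ZMod.card, ← pow_mul, pow_succ]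
    rw [← h1]
    show ((FiniteField.frobeniusAlgEquivOfAlgebraic (ZMod p) Ω) ^ k *
      (FiniteField.frobeniusAlgEquivOfAlgebraic (ZMod p) Ω)⁻¹ ^ k) c = c
    rw [inv_pow, mul_inv_cancel]
    rfl
  have hτU : τ ∈ U := by
    apply hEU
    rw [SetLike.mem_coe, IntermediateField.mem_fixingSubgroup_iff]
    intro c hc
    have h1 := hτ c
    have h2 : c ^ p ^ k = c := congrArg Subtype.val (hE' ⟨c, hc⟩)
    have h3 : τ c ^ p ^ k = c ^ p ^ k := by rw [h1, h2]
    exact iterateFrobenius_inj Ω p k (by rw [iterateFrobenius_def, iterateFrobenius_def]; exact h3)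
  obtain ⟨h1, h2⟩ := hγ τ hτU
  refine ⟨k, { toFun := fun a => (γ τ a) ^ p ^ k
               map_one' := by rw [map_one, one_pow]
               map_mul' := fun a b => by rw [map_mul, mul_pow]
               map_zero' := by rw [map_zero, zero_pow (pow_pos hp.pos k).ne']
               map_add' := fun a b => by rw [map_add, add_pow_char_pow]
               commutes' := fun c => by
                 have h3 : γ τ (algebraMap Ω K c) = algebraMap Ω K (τ c) := h1 c
                 show (γ τ (algebraMap Ω K c)) ^ p ^ k = _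
                 rw [h3, ← map_pow, hτ] }, hk, ?_⟩
  show adjoin Ω _ = ⊤
  rw [eq_top_iff, ← hQ, adjoin_le_iff]
  intro a ha
  rw [← hs] at ha
  obtain ⟨i, rfl⟩ := ha
  apply subset_adjoin
  show (γ τ (s i)) ^ p ^ k = s i ^ p ^ k
  rw [h2]

/-- every relative Frobenius is semisimple on the second cohomology -/
def Good (T : Theory p Ω L) (K : Type) [Field K] [Algebra Ω K] : Prop :=
  ∀ (e : ℕ) (φ : K →ₐ[Ω] K), 0 < e → IsFrob (p ^ e) φ → Module.End.IsSemisimple (T.map 2 φ)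

/-- it is enough to consider a power -/
theorem Good.of_pow [CharZero L] [IsAlgClosed L] (T : Theory p Ω L) {K : Type} [Field K]
    [Algebra Ω K] (hK : (⊤ : IntermediateField Ω K).FG)
    (h : ∀ (e : ℕ) (φ : K →ₐ[Ω] K), 0 < e → IsFrob (p ^ e) φ →
      ∃ k : ℕ, 0 < k ∧ Module.End.IsSemisimple (T.map 2 (φ ^ k))) : Good T K := by
  intro e φ he hφ
  obtain ⟨k, hk, h1⟩ := h e φ he hφ
  have hfin : FiniteDimensional L (T.H 2 K) := T.fin 2 K hK
  refine semisimple_of_pow (T.map 2 φ) (T.inj 2 φ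
    (isFrob_algebraic (pow_pos hpr.out.pos e) hφ)) hk ?_
  rw [← tmap_pow75 T.toBaseTheory]
  exact h1

/-- a power of a relative Frobenius on a finitely generated intermediate field -/
theorem restrict_frob {K : Type} [Field K] [Algebra Ω K] {e k : ℕ} (φ : K →ₐ[Ω] K) (Q : Set K)
    (h : ∀ a ∈ Q, (φ ^ k) a = a ^ p ^ (e * k)) :
    ∃ ψ : adjoin Ω Q →ₐ[Ω] adjoin Ω Q, IsFrob (p ^ (e * k)) ψ ∧
      ∀ a : adjoin Ω Q, (ψ a : K) = (φ ^ k) a := by
  have h1 : adjoin Ω Q ≤ (adjoin Ω Q).comap (φ ^ k) := by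
    rw [adjoin_le_iff]
    intro a ha
    show (φ ^ k) a ∈ adjoin Ω Q
    rw [h a ha]
    exact pow_mem (subset_adjoin _ _ ha) _
  refine ⟨{ toFun := fun a => ⟨(φ ^ k) a, h1 a.2⟩
            map_one' := Subtype.ext (map_one _)
            map_mul' := fun a b => Subtype.ext (map_mul (φ ^ k) (a : K) b)
            map_zero' := Subtype.ext (map_zero _)
            map_add' := fun a b => Subtype.ext (map_add (φ ^ k) (a : K) b)
            commutes' := fun c => Subtype.ext ((φ ^ k).commutes c) }, ?_, fun a => rfl⟩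
  show adjoin Ω _ = ⊤
  apply lift_injective (adjoin Ω Q)
  rw [lift_top, lift_adjoin]
  apply le_antisymm
  · rw [adjoin_le_iff]
    rintro _ ⟨a, _, rfl⟩
    exact a.2
  · rw [adjoin_le_iff]
    intro a ha
    apply subset_adjoin
    exact ⟨⟨a, subset_adjoin _ _ ha⟩, Subtype.ext (h a ha), rfl⟩

/-- **Domination.** -/
theorem Good.of_hom (hΩ : ∀ c : Ω, ∃ k : ℕ, 0 < k ∧ c ^ p ^ k = c) [IsAlgClosed Ω] [CharZero L]
    [IsAlgClosed L] (T : Theory p Ω L) {K0 K : Type} [Field K0] [Algebra Ω K0] [Field K]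
    [Algebra Ω K] (hK0 : (⊤ : IntermediateField Ω K0).FG) (hK : (⊤ : IntermediateField Ω K).FG)
    (j : K0 →ₐ[Ω] K) (hj : ∀ a : K, IsAlgebraic j.fieldRange a) (h : Good T K) : Good T K0 := by
  intro e φ0 he h0
  obtain ⟨k2, Φ, hk2, hΦ⟩ := exists_frob hΩ hK
  obtain ⟨Q, hQ⟩ := hK0
  obtain ⟨k1, hk1, h1⟩ := frob_set hΩ φ0 h0 (Q : Set K0) Q.finite_toSet
  obtain ⟨k3, hk3, h3⟩ := frob_set hΩ Φ hΦ (j '' (Q : Set K0)) (Q.finite_toSet.image j)
  have hE : 0 < e * (k1 * k2 * k3) := Nat.mul_pos he (Nat.mul_pos (Nat.mul_pos hk1 hk2) hk3)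
  -- the common exponent
  have hfr : IsFrob (p ^ (k2 * (k3 * (e * k1)))) (Φ ^ (k3 * (e * k1))) := by
    show adjoin Ω _ = ⊤
    rw [eq_top_iff]
    have h4 : adjoin Ω {a : K | Φ a = a ^ p ^ k2} = ⊤ := hΦ
    rw [← h4]
    apply adjoin.mono
    intro a ha
    have h5 : (Φ ^ 1) a = a ^ p ^ (k2 * 1) := by
      rw [pow_one, mul_one]
      exact ha
    exact pow_frob' Φ h5 (one_dvd _)
  have hss := h _ _ (by positivity) hfr
  refine semisimple_of_dom T hK j hj (e := e) (m := k1 * k2 * k3)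
    (Nat.mul_pos (Nat.mul_pos hk1 hk2) hk3) φ0 _ h0 (fun a => ?_) hss
  have h6 : j.comp (φ0 ^ (k1 * k2 * k3)) = (Φ ^ (k3 * (e * k1))).comp j := by
    refine hom_ext (Q : Set K0) hQ _ _ ?_
    intro a ha
    rw [AlgHom.comp_apply, AlgHom.comp_apply,
      h1 _ ((Dvd.intro _ rfl).trans (Dvd.intro _ rfl)) a ha, map_pow,
      h3 _ (Dvd.intro _ rfl) (j a) ⟨a, ha, rfl⟩]
    congr 2
    ring
  exact AlgHom.congr_fun h6 a

/-- **Purely inseparable extensions.** -/
theorem Good.of_insep (hΩ : ∀ c : Ω, ∃ k : ℕ, 0 < k ∧ c ^ p ^ k = c) [CharZero L]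
    [IsAlgClosed L] (T : Theory p Ω L) {K : Type} [Field K]
    [Algebra Ω K] (hK : (⊤ : IntermediateField Ω K).FG) (Q1 : Set K) (hQ1 : Q1.Finite) (r : ℕ)
    (hr : ∀ a : K, a ^ p ^ r ∈ adjoin Ω Q1) (h : Good T (adjoin Ω Q1)) : Good T K := by
  refine Good.of_pow T hK fun e φ he hφ => ?_
  obtain ⟨Q, hQ⟩ := hK
  obtain ⟨k0, hk0, h0⟩ := frob_set hΩ φ hφ ((Q : Set K) ∪ Q1) (Q.finite_toSet.union hQ1)
  obtain ⟨k, hkd⟩ : ∃ k, k = k0 * (r + 1) := ⟨_, rfl⟩
  have hk : 0 < k := by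
    rw [hkd]
    positivity
  have hrk : r ≤ e * k := by
    have h1 : r + 1 ≤ k := by
      rw [hkd]
      exact Nat.le_mul_of_pos_left _ hk0
    have h2 : k ≤ e * k := Nat.le_mul_of_pos_left _ he
    omega
  have h1 : ∀ a ∈ (Q : Set K) ∪ Q1, (φ ^ k) a = a ^ p ^ (e * k) :=
    h0 k (by rw [hkd]; exact Dvd.intro _ rfl)
  refine ⟨k, hk, ?_⟩
  obtain ⟨ψ, hψ, hψ'⟩ := restrict_frob φ Q1 fun a ha => h1 a (Or.inr ha)
  have h2 := h _ ψ (Nat.mul_pos he hk) hψ
  -- `φ ^ k` maps `K` to the subfield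
  have h3 : ∀ a : K, (φ ^ k) a ∈ adjoin Ω Q1 := by
    have h4 : (⊤ : IntermediateField Ω K) ≤ (adjoin Ω Q1).comap (φ ^ k) := by
      rw [← hQ, adjoin_le_iff]
      intro a ha
      show (φ ^ k) a ∈ adjoin Ω Q1
      rw [h1 a (Or.inl ha)]
      obtain ⟨l, hl⟩ := Nat.exists_eq_add_of_le hrk
      rw [hl, pow_add, pow_mul]
      exact pow_mem (hr a) _
    exact fun a => h4 (mem_top (x := a))
  let χ : K →ₐ[Ω] adjoin Ω Q1 :=
    { toFun := fun a => ⟨(φ ^ k) a, h3 a⟩
      map_one' := Subtype.ext (map_one _)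
      map_mul' := fun a b => Subtype.ext (map_mul (φ ^ k) a b)
      map_zero' := Subtype.ext (map_zero _)
      map_add' := fun a b => Subtype.ext (map_add (φ ^ k) a b)
      commutes' := fun c => Subtype.ext ((φ ^ k).commutes c) }
  have hχ : (adjoin Ω Q1).val.comp χ = φ ^ k := rfl
  have hfin : FiniteDimensional L (T.H 2 K) := T.fin 2 K ⟨Q, hQ⟩
  have hinj : Function.Injective (T.map 2 (φ ^ k)) := by
    rw [tmap_pow75 T.toBaseTheory, Module.End.coe_pow]
    exact (T.inj 2 φ (isFrob_algebraic (pow_pos hpr.out.pos e) hφ)).iterate k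
  have hsurj : Function.Surjective (T.map 2 (adjoin Ω Q1).val) := by
    have h5 : Function.Surjective (T.map 2 (φ ^ k)) :=
      LinearMap.surjective_of_injective hinj
    intro v
    obtain ⟨u, hu⟩ := h5 v
    refine ⟨T.map 2 χ u, ?_⟩
    rw [← hu, ← hχ, T.map_comp]
    rfl
  refine semisimple_of_surj (T.map 2 ψ) (T.map 2 (φ ^ k)) (T.map 2 (adjoin Ω Q1).val) hsurj
    (fun v => ?_) h2
  have h6 : (adjoin Ω Q1).val.comp ψ = (φ ^ k).comp (adjoin Ω Q1).val :=
    AlgHom.ext fun a => hψ' a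
  have h7 := congrArg (fun g => T.map 2 g v) h6
  simp only [T.map_comp, LinearMap.comp_apply] at h7
  exact h7

/-- a sum of images of semisimple spaces -/
theorem semisimple_of_iSup {V : Type} [AddCommGroup V] [Module L V] [FiniteDimensional L V]
    (Ψ : Module.End L V) {ι : Type} (W : ι → Type) [∀ i, AddCommGroup (W i)]
    [∀ i, Module L (W i)] (Φ : ∀ i, Module.End L (W i)) (g : ∀ i, W i →ₗ[L] V)
    (hi : ∀ i, Function.Injective (g i)) (hc : ∀ i v, g i (Φ i v) = Ψ (g i v))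
    (h : ∀ i, (Φ i).IsSemisimple) (htop : ⨆ i, LinearMap.range (g i) = ⊤) :
    Ψ.IsSemisimple := by
  classical
  have hW : ∀ i, FiniteDimensional L (W i) := fun i => FiniteDimensional.of_injective _ (hi i)
  have h1 : ∀ (i : ι) (P : Polynomial L) (v : W i),
      g i (Polynomial.aeval (Φ i) P v) = Polynomial.aeval Ψ P (g i v) := by
    intro i P v
    induction P using Polynomial.induction_on' with
    | add P Q hP hQ =>
      rw [map_add, map_add, LinearMap.add_apply, LinearMap.add_apply, map_add, hP, hQ]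
    | monomial m c =>
      have h2 : ∀ m : ℕ, g i ((Φ i ^ m) v) = (Ψ ^ m) (g i v) := by
        intro m
        induction m with
        | zero => simp
        | succ m ih => rw [pow_succ', pow_succ', Module.End.mul_apply, Module.End.mul_apply, hc, ih]
      rw [Polynomial.aeval_monomial, Polynomial.aeval_monomial, Algebra.algebraMap_eq_smul_one,
        Algebra.algebraMap_eq_smul_one, smul_mul_assoc, one_mul, smul_mul_assoc, one_mul,
        LinearMap.smul_apply, LinearMap.smul_apply, map_smul, h2]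
  have hm0 : minpoly L Ψ ≠ 0 := minpoly.ne_zero (Algebra.IsIntegral.isIntegral Ψ)
  refine End.isSemisimple_of_squarefree_aeval_eq_zero
    (p := UniqueFactorizationMonoid.radical (minpoly L Ψ))
    UniqueFactorizationMonoid.squarefree_radical ?_
  have hker : (⨆ i, LinearMap.range (g i)) ≤
      LinearMap.ker (Polynomial.aeval Ψ (UniqueFactorizationMonoid.radical (minpoly L Ψ))) := by
    refine iSup_le fun i => ?_
    rintro _ ⟨v, rfl⟩
    rw [LinearMap.mem_ker]
    have h2 : minpoly L (Φ i) ∣ minpoly L Ψ := by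
      apply minpoly.dvd
      refine LinearMap.ext fun w => hi i ?_
      rw [h1, minpoly.aeval, LinearMap.zero_apply, LinearMap.zero_apply, map_zero]
    have h3 : minpoly L (Φ i) ∣ UniqueFactorizationMonoid.radical (minpoly L Ψ) :=
      (UniqueFactorizationMonoid.dvd_radical_iff (h i).minpoly_squarefree.isRadical hm0).2 h2
    obtain ⟨q, hq⟩ := h3
    rw [← h1, hq, map_mul, minpoly.aeval, zero_mul, LinearMap.zero_apply, map_zero]
  rw [htop, top_le_iff, LinearMap.ker_eq_top] at hker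
  exact hker

/-- **Sums of images of the cohomology of subfields.** -/
theorem Good.of_span (hΩ : ∀ c : Ω, ∃ k : ℕ, 0 < k ∧ c ^ p ^ k = c) [CharZero L]
    [IsAlgClosed L] (T : Theory p Ω L) {K : Type} [Field K]
    [Algebra Ω K] (hK : (⊤ : IntermediateField Ω K).FG) {ι : Type} [Finite ι] (Q : ι → Set K)
    (hQ : ∀ i, (Q i).Finite) (halg : ∀ i, ∀ a : K, IsAlgebraic (adjoin Ω (Q i)) a)
    (hspan : ⨆ i, LinearMap.range (T.map 2 (adjoin Ω (Q i)).val) = ⊤)
    (h : ∀ i, Good T (adjoin Ω (Q i))) : Good T K := by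
  refine Good.of_pow T hK fun e φ he hφ => ?_
  obtain ⟨k, hk, h1⟩ := frob_set hΩ φ hφ (⋃ i, Q i) (Set.finite_iUnion hQ)
  have h2 : ∀ i, ∃ ψ : adjoin Ω (Q i) →ₐ[Ω] adjoin Ω (Q i), IsFrob (p ^ (e * k)) ψ ∧
      ∀ a : adjoin Ω (Q i), (ψ a : K) = (φ ^ k) a := fun i =>
    restrict_frob φ (Q i) fun a ha => h1 k dvd_rfl a (Set.mem_iUnion.2 ⟨i, ha⟩)
  choose ψ hψ hψ' using h2
  have hfin : FiniteDimensional L (T.H 2 K) := T.fin 2 K hK
  refine ⟨k, hk, semisimple_of_iSup (T.map 2 (φ ^ k)) (fun i => T.H 2 (adjoin Ω (Q i)))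
    (fun i => T.map 2 (ψ i)) (fun i => T.map 2 (adjoin Ω (Q i)).val) (fun i => ?_) (fun i v => ?_)
    (fun i => h i _ (ψ i) (Nat.mul_pos he hk) (hψ i)) hspan⟩
  · refine T.inj 2 _ fun a => ?_
    rw [IntermediateField.fieldRange_val]
    exact halg i a
  · have h6 : (adjoin Ω (Q i)).val.comp (ψ i) = (φ ^ k).comp (adjoin Ω (Q i)).val :=
      AlgHom.ext fun a => hψ' i a
    have h7 := congrArg (fun g => T.map 2 g v) h6
    simp only [T.map_comp, LinearMap.comp_apply] at h7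
    exact h7

end Pool.Agent.Helper75.TC
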