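import Pool.Agent.Helper75.TC.CoordA

/-! The two inputs of the criterion for `w^n = f(x, y)`, `deg f ≤ 4`, kernel curve
`u^n = v (1 - v)`. -/

set_option autoImplicit false

namespace Pool.Agent.Helper75.TC

open IntermediateField Pool.Agent.Helper75.QC

theorem huni_A {Ω : Type} [Field Ω] [IsAlgClosed Ω] (f : MvPolynomial (Fin 2) Ω)
    (hf : f.totalDegree ≤ 4) {n : ℕ} (hn : 0 < n) {K : Type} [Field K] [Algebra Ω K] (x y w : K)
    (hw : w ^ n = val f x y) (N : Type) [Field N] [Algebra Ω N] (g : K →ₐ[Ω] N) (v s : N)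
    (hv : Transcendental g.fieldRange v) (hs : v ^ 1 * (1 - v) ^ 1 = s ^ n * g w ^ n) :
    Uniruled Ω (adjoin Ω {g x, g y, v, s} : IntermediateField Ω N) 3 := by
  obtain ⟨c, hc⟩ := exists_Fv f hf
  refine uni_field c hn (g x) (g y) v s ?_ ?_
  · intro h
    exact hv (h.tower_top _)
  · rw [pow_one, pow_one, ← map_pow, hw, map_val] at hs
    rw [hs, ← hc N (g x) (g y)]
    rfl

theorem hexc_A {Ω L : Type} [Field Ω] [IsAlgClosed Ω] [Field L] (T : BaseTheory Ω L)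
    (f : MvPolynomial (Fin 2) Ω) (hf : f.totalDegree ≤ 4) {n : ℕ} (hn : 0 < n)
    (hn' : (n : Ω) ≠ 0) {K : Type} [Field K] [Algebra Ω K] (x y w : K)
    (hK : adjoin Ω {x, y, w} = ⊤) (hw0 : w ≠ 0) (hw : w ^ n = val f x y) (ζ : Ω)
    (σ : K →ₐ[Ω] K) (hζ : IsPrimitiveRoot ζ n) (h1 : σ x = x) (h2 : σ y = y)
    (h3 : σ w = algebraMap Ω K ζ * w) (ξ : L) (t : T.H 2 K) (_ : ξ ^ n = 1)
    (hξ : ξ ^ 1 = 1 ∨ ξ ^ 1 = 1 ∨ ξ ^ (1 + 1) = 1) (ht : T.map 2 σ t = ξ • t) : t = 0 := by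
  have hξ2 : ξ ^ 2 = 1 := by
    rcases hξ with h | h | h
    · rw [pow_one] at h
      rw [h, one_pow]
    · rw [pow_one] at h
      rw [h, one_pow]
    · exact h
  refine eigen_zero T f hf hn hn' hζ x y w hK hw0 hw σ ⟨h1, h2, h3⟩ t ?_
  rw [ht, map_smul, ht, smul_smul, ← pow_two, hξ2, one_smul]

end Pool.Agent.Helper75.TC
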