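import Pool.Agent.Helper75.TC.Red1
import Pool.Agent.Helper48.TC.Red

/-! Block TC-6. Reduction to five normal forms.

Let `F = val f x y`, `G = val g x y`.
(1) `coprime_of`: if `w^n = h^d`, `d ∣ n`, `h ∈ Ω(x, y)`, then `d = 1`: `(w^(n/d) / h)^d = 1`, so
`w^(n/d) = ζ h`, `ζ ∈ Ω` (`Ω` is algebraically closed), `w^(n/d) ∈ Ω(x, y)`, so
`n = [K : Ω(x, y)] ≤ n / d`.
(2) `change`: for `c` with `c c' ≡ 1` modulo `n` and `A ∈ Ω(x, y)`, `A ≠ 0`, `φ A = A^q`, the element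
`w' = w^c A` satisfies `Cover q n x y w' φ` (`w'^(c')` is `w` times an element of `Ω(x, y)`).
(3) `red`: if `a1 = 0` replace `f` by `1`, if `a2 = 0` replace `g` by `1`; then `F, G ≠ 0`. By symmetry
`d2 ≤ d1`. `gcd (a1, a2, n) = 1` by (1) (and `gcd (a1, n) = 1` if `d2 = 0`: `g` is a constant and a
`d`-th power in `Ω`). Powers of `F`, `G` with integral exponents are allowed for `A`.
`d2 = 0`: `n ∣ a1 d1`, `gcd (a1, n) = 1`, so `n ∣ d1`; `c a1 ≡ 1`, `w'^n = F γ`, `γ` a constant in the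
field with `q` elements: form A with `ℓ = 1` if `d1 ≤ 4`, form C if `d1 = 5` (then `n = 5`).
`d2 = 1` (`d1 ≤ 4`): `a2 ≡ - a1 d1`, so `gcd (a1, n) = 1`, `c a1 ≡ 1`: `w'^n = F / G^(d1)`: form A
with `f G^(4 - d1)`, `ℓ = g`.
`d1 = 3, d2 = 2`: `3 a1 + 2 a2 ≡ 0`, `k = - a1 - a2`: `a1 ≡ 2 k`, `a2 ≡ - 3 k`, `gcd (k, n) = 1`,
`c k ≡ 1`: `w'^n = F^2 / G^3`: form B.
`d1 = d2 = 2`: `n ∣ a1 + a2`: `w'^n = F / G`: form D. Otherwise `n = 2 m`, `a1 + a2 ≡ m` modulo `n`.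
If `a1` is odd: `gcd (a1, n) = 1`, `c a1 ≡ 1`, `c` odd, `c a2 ≡ m - 1`: form E. If `a1` is even then
`m` and `a2` are odd: exchange `f` and `g`. -/

set_option autoImplicit false

namespace Pool.Agent.Helper75.TC

open IntermediateField Pool.Agent.Helper75.QC

/-- the normal forms -/
def NormalForm {Ω K : Type} [Field Ω] [Field K] [Algebra Ω K] (q n : ℕ) (x y w : K) : Prop :=
  (∃ f ℓ : MvPolynomial (Fin 2) Ω, f.totalDegree ≤ 4 ∧ ℓ.totalDegree ≤ 1 ∧ Over q ℓ ∧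
    val ℓ x y ≠ 0 ∧ w ^ n * val ℓ x y ^ 4 = val f x y) ∨
  (∃ f g : MvPolynomial (Fin 2) Ω, f.totalDegree ≤ 3 ∧ g.totalDegree ≤ 2 ∧ val g x y ≠ 0 ∧
    w ^ n * val g x y ^ 3 = val f x y ^ 2) ∨
  (n = 5 ∧ ∃ f : MvPolynomial (Fin 2) Ω, f.totalDegree ≤ 5 ∧ w ^ n = val f x y) ∨
  (∃ f g : MvPolynomial (Fin 2) Ω, f.totalDegree ≤ 2 ∧ g.totalDegree ≤ 2 ∧ val g x y ≠ 0 ∧
    w ^ n * val g x y = val f x y) ∨
  (∃ (m : ℕ) (f g : MvPolynomial (Fin 2) Ω), n = 2 * m ∧ f.totalDegree ≤ 2 ∧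
    g.totalDegree ≤ 2 ∧ val g x y ≠ 0 ∧ w ^ n = val f x y * val g x y ^ (m - 1))

private theorem gen30 {Ω K : Type} [Field Ω] [Field K] [Algebra Ω K] {q n : ℕ} (hn : 1 < n)
    (x y w F G : K) (φ : K →ₐ[Ω] K) (hC : Cover q n x y w φ) (hw0 : w ≠ 0)
    (hF : F ∈ adjoin Ω {x, y}) (hG : G ∈ adjoin Ω {x, y}) (hF0 : F ≠ 0) (hG0 : G ≠ 0)
    (hφF : φ F = F ^ q) (hφG : φ G = G ^ q) (a1 a2 : ℕ) (hw : w ^ n = F ^ a1 * G ^ a2)
    (c c' : ℕ) (hc : c * c' ≡ 1 [MOD n]) (b1 b2 : ℤ) (h1 : (n : ℤ) ∣ c * a1 - b1)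
    (h2 : (n : ℤ) ∣ c * a2 - b2) :
    ∃ w' : K, w' ≠ 0 ∧ Cover q n x y w' φ ∧ w' ^ n = F ^ b1 * G ^ b2 := by
  obtain ⟨t1, ht1⟩ := h1
  obtain ⟨t2, ht2⟩ := h2
  have hA : F ^ (-t1) * G ^ (-t2) ∈ adjoin Ω {x, y} :=
    mul_mem (zpow_mem hF _) (zpow_mem hG _)
  have hA0 : F ^ (-t1) * G ^ (-t2) ≠ 0 := mul_ne_zero (zpow_ne_zero _ hF0) (zpow_ne_zero _ hG0)
  have hφA : φ (F ^ (-t1) * G ^ (-t2)) = (F ^ (-t1) * G ^ (-t2)) ^ q := by
    rw [map_mul, map_zpow₀, map_zpow₀, hφF, hφG, mul_pow]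
    congr 1
    · rw [← zpow_natCast, ← zpow_natCast, ← zpow_mul, ← zpow_mul, mul_comm]
    · rw [← zpow_natCast, ← zpow_natCast, ← zpow_mul, ← zpow_mul, mul_comm]
  have hwn : w ^ n ∈ adjoin Ω {x, y} := by
    rw [hw]
    exact mul_mem (pow_mem hF _) (pow_mem hG _)
  refine ⟨w ^ c * (F ^ (-t1) * G ^ (-t2)), mul_ne_zero (pow_ne_zero _ hw0) hA0,
    change hn hc x y w _ φ hC hwn hw0 hA hA0 hφA, ?_⟩
  have e1 : b1 = c * a1 + -t1 * n := by linear_combination -ht1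
  have e2 : b2 = c * a2 + -t2 * n := by linear_combination -ht2
  rw [mul_pow, mul_pow, ← pow_mul, mul_comm c n, pow_mul, hw, e1, e2, zpow_add₀ hF0,
    zpow_add₀ hG0, zpow_mul, zpow_mul, zpow_mul, zpow_mul, zpow_natCast, zpow_natCast,
    zpow_natCast, zpow_natCast, zpow_natCast, zpow_natCast, mul_pow, ← pow_mul, ← pow_mul,
    ← pow_mul, ← pow_mul, mul_comm a1, mul_comm a2]
  ring

private theorem over_one30 {Ω : Type} [Field Ω] {q : ℕ} (hq : q ≠ 0) :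
    Over q (1 : MvPolynomial (Fin 2) Ω) := by
  intro d
  rw [MvPolynomial.coeff_one]
  split_ifs
  · rw [one_pow]
  · rw [zero_pow hq]

private theorem val_one30 {Ω K : Type} [Field Ω] [Field K] [Algebra Ω K] (x y : K) :
    val (1 : MvPolynomial (Fin 2) Ω) x y = 1 := map_one _

private theorem val_mul30 {Ω K : Type} [Field Ω] [Field K] [Algebra Ω K] (x y : K)
    (f g : MvPolynomial (Fin 2) Ω) : val (f * g) x y = val f x y * val g x y := map_mul _ _ _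

private theorem val_pow30 {Ω K : Type} [Field Ω] [Field K] [Algebra Ω K] (x y : K)
    (f : MvPolynomial (Fin 2) Ω) (k : ℕ) : val (f ^ k) x y = val f x y ^ k := map_pow _ _ _

/-- an inverse modulo `n` -/
private theorem inv30 {n a : ℕ} (hn : 1 < n) (h : Nat.Coprime a n) :
    ∃ c c' : ℕ, c * c' ≡ 1 [MOD n] ∧ (n : ℤ) ∣ c * a - 1 := by
  obtain ⟨c, -, hc⟩ := Nat.exists_mul_mod_eq_one_of_coprime h hn
  have h1 : c * a ≡ 1 [MOD n] := by
    have h2 : c * a % n = 1 % n := by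
      rw [mul_comm, hc, Nat.mod_eq_of_lt hn]
    exact h2
  refine ⟨c, a, h1, ?_⟩
  have h2 := (Nat.modEq_iff_dvd.mp h1.symm)
  push_cast at h2
  exact h2

/-- no common divisor of the exponents and `n` -/
private theorem gcd30 {Ω K : Type} [Field Ω] [IsAlgClosed Ω] [Field K] [Algebra Ω K] {n : ℕ}
    (hn : 0 < n) (x y w F G : K) (hK : adjoin Ω {x, y, w} = ⊤)
    (hdeg : Module.finrank (adjoin Ω {x, y}) K = n)
    (hF : F ∈ adjoin Ω {x, y}) (hG : G ∈ adjoin Ω {x, y}) (hw0 : w ≠ 0) (a1 a2 d : ℕ)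
    (hw : w ^ n = F ^ a1 * G ^ a2) (hd : d ∣ n) (h1 : d ∣ a1) (h2 : d ∣ a2) : d = 1 := by
  obtain ⟨b1, hb1⟩ := h1
  obtain ⟨b2, hb2⟩ := h2
  refine coprime_of hn x y w hK hdeg hd (F ^ b1 * G ^ b2)
    (mul_mem (pow_mem hF _) (pow_mem hG _)) hw0 ?_
  rw [hw, hb1, hb2, mul_pow, ← pow_mul, ← pow_mul, mul_comm d, mul_comm d]

/-- coprime degrees -/
private theorem cop30 {Ω K : Type} [Field Ω] [IsAlgClosed Ω] [Field K] [Algebra Ω K] {q n : ℕ}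
    (hn : 1 < n) (x y w F G : K) (φ : K →ₐ[Ω] K) (hC : Cover q n x y w φ) (hw0 : w ≠ 0)
    (hF : F ∈ adjoin Ω {x, y}) (hG : G ∈ adjoin Ω {x, y}) (hF0 : F ≠ 0) (hG0 : G ≠ 0)
    (hφF : φ F = F ^ q) (hφG : φ G = G ^ q) (a1 a2 d1 d2 : ℕ) (hw : w ^ n = F ^ a1 * G ^ a2)
    (hd : Nat.Coprime d1 d2) (h : n ∣ a1 * d1 + a2 * d2) :
    ∃ w' : K, w' ≠ 0 ∧ Cover q n x y w' φ ∧ w' ^ n * G ^ d1 = F ^ d2 := by
  have hn0 : 0 < n := by omega
  obtain ⟨c, e, ⟨t, ht⟩, ⟨t1, ht1⟩, ⟨t2, ht2⟩⟩ := Pool.Agent.Helper48.TC.exists_exp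
    (n := n) (d₁ := d1) (d₂ := d2) (a₁ := a1) (a₂ := a2)
    (Nat.isCoprime_iff_coprime.mpr hd) (by exact_mod_cast h)
    (fun d hd1 hd2 hd3 => gcd30 hn0 x y w F G hC.gen hC.deg hF hG hw0 a1 a2 d hw hd1
      (by exact_mod_cast hd2) (by exact_mod_cast hd3))
  -- nonnegative representatives
  have hnz : (n : ℤ) ≠ 0 := by exact_mod_cast hn0.ne'
  have r1 : 0 ≤ e % n := Int.emod_nonneg _ hnz
  have r2 : 0 ≤ c % n := Int.emod_nonneg _ hnz
  obtain ⟨E, hE⟩ := Int.eq_ofNat_of_zero_le r1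
  obtain ⟨C, hC'⟩ := Int.eq_ofNat_of_zero_le r2
  have e1 := Int.emod_add_mul_ediv e n
  have e2 := Int.emod_add_mul_ediv c n
  rw [hE] at e1
  rw [hC'] at e2
  set u := e / (n : ℤ) with hu
  set v := c / (n : ℤ) with hv
  have hEC : E * C ≡ 1 [MOD n] := by
    refine Nat.ModEq.symm (Nat.modEq_iff_dvd.mpr ?_)
    push_cast
    refine ⟨t - e * v - c * u + n * u * v, ?_⟩
    have e3 : (E : ℤ) = e - n * u := by linear_combination e1
    have e4 : (C : ℤ) = c - n * v := by linear_combination e2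
    rw [e3, e4]
    linear_combination ht
  have e3 : (E : ℤ) = e - n * u := by linear_combination e1
  obtain ⟨w', h1, h2, h3⟩ := gen30 hn x y w F G φ hC hw0 hF hG hF0 hG0 hφF hφG a1 a2 hw E C hEC
    (d2 : ℤ) (-(d1 : ℤ)) ⟨d2 * t + e * t1 - u * a1, by
      rw [e3]; linear_combination e * ht1 + d2 * ht⟩ ⟨-d1 * t + e * t2 - u * a2, by
      rw [e3]; linear_combination e * ht2 - d1 * ht⟩
  refine ⟨w', h1, h2, ?_⟩
  rw [h3, zpow_natCast, zpow_neg, zpow_natCast, mul_assoc, inv_mul_cancel₀ (pow_ne_zero _ hG0),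
    mul_one]

private theorem deg_mul30 {Ω : Type} [Field Ω] (f g : MvPolynomial (Fin 2) Ω) {a b c k : ℕ}
    (hf : f.totalDegree ≤ a) (hg : g.totalDegree ≤ b) (h : a + k * b ≤ c) :
    (f * g ^ k).totalDegree ≤ c := by
  refine (MvPolynomial.totalDegree_mul _ _).trans ?_
  have h1 := MvPolynomial.totalDegree_pow g k
  have h2 : k * g.totalDegree ≤ k * b := Nat.mul_le_mul_left k hg
  omega

/-- both values are nonzero and `d2 ≤ d1` -/
private theorem redA30 {p e : ℕ} [Fact p.Prime] {Ω K : Type} [Field Ω] [IsAlgClosed Ω] [CharP Ω p]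
    [Field K] [Algebra Ω K] {n : ℕ} (hn : 1 < n) (x y w : K) (φ : K →ₐ[Ω] K)
    (hC : Cover (p ^ e) n x y w φ) (hw0 : w ≠ 0) (f g : MvPolynomial (Fin 2) Ω)
    (hf : Over (p ^ e) f) (hg : Over (p ^ e) g) (d1 d2 a1 a2 : ℕ) (h1 : f.totalDegree ≤ d1)
    (h2 : g.totalDegree ≤ d2) (hd : d1 + d2 ≤ 5) (ha : n ∣ a1 * d1 + a2 * d2)
    (hw : w ^ n = val f x y ^ a1 * val g x y ^ a2) (hF0 : val f x y ≠ 0) (hG0 : val g x y ≠ 0)
    (hle : d2 ≤ d1) :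
    ∃ w' : K, w' ≠ 0 ∧ Cover (p ^ e) n x y w' φ ∧ NormalForm (Ω := Ω) (p ^ e) n x y w' := by
  have hx : x ∈ adjoin Ω {x, y} := subset_adjoin _ _ (by simp)
  have hy : y ∈ adjoin Ω {x, y} := subset_adjoin _ _ (by simp)
  have hF : val f x y ∈ adjoin Ω {x, y} := val_mem f _ hx hy
  have hG : val g x y ∈ adjoin Ω {x, y} := val_mem g _ hx hy
  have hφF := frob_val φ hC.frx hC.fry hf
  have hφG := frob_val φ hC.frx hC.fry hg
  have hn0 : 0 < n := by omega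
  have hgcd := fun d => gcd30 hn0 x y w _ _ hC.gen hC.deg hF hG hw0 a1 a2 d hw
  have hcop := fun D1 D2 => cop30 hn x y w _ _ φ hC hw0 hF hG hF0 hG0 hφF hφG a1 a2 D1 D2 hw
  have hgen := gen30 hn x y w _ _ φ hC hw0 hF hG hF0 hG0 hφF hφG a1 a2 hw
  -- the form E, `a1` odd
  have hE : ∀ (f' g' : MvPolynomial (Fin 2) Ω), Over (p ^ e) f' → Over (p ^ e) g' →
      f'.totalDegree ≤ 2 → g'.totalDegree ≤ 2 → val f' x y ≠ 0 → val g' x y ≠ 0 →
      ∀ a b m : ℕ, n = 2 * m → (n : ℤ) ∣ a + b - m → ¬ 2 ∣ a →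
      w ^ n = val f' x y ^ a * val g' x y ^ b →
      ∃ w' : K, w' ≠ 0 ∧ Cover (p ^ e) n x y w' φ ∧ NormalForm (Ω := Ω) (p ^ e) n x y w' := by
    intro f' g' hf' hg' hdf hdg hF0' hG0' a b m hm hab hodd hw'
    have hF' : val f' x y ∈ adjoin Ω {x, y} := val_mem f' _ hx hy
    have hG' : val g' x y ∈ adjoin Ω {x, y} := val_mem g' _ hx hy
    have hcopr : Nat.Coprime a n := by
      rw [Nat.coprime_iff_gcd_eq_one]
      have k1 : Nat.gcd a n ∣ a := Nat.gcd_dvd_left _ _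
      have k2 : Nat.gcd a n ∣ n := Nat.gcd_dvd_right _ _
      refine gcd30 hn0 x y w _ _ hC.gen hC.deg hF' hG' hw0 a b _ hw' k2 k1 ?_
      have k3 : Nat.Coprime (Nat.gcd a n) 2 := by
        rw [Nat.coprime_comm, Nat.Prime.coprime_iff_not_dvd Nat.prime_two]
        intro h
        exact hodd (h.trans k1)
      have k4 : Nat.gcd a n ∣ m := by
        refine k3.dvd_of_dvd_mul_left ?_
        rw [← hm]
        exact k2
      have k5 : ((Nat.gcd a n : ℕ) : ℤ) ∣ (b : ℤ) := by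
        have k6 : ((Nat.gcd a n : ℕ) : ℤ) ∣ a + b - m := (by exact_mod_cast k2 : ((Nat.gcd a n : ℕ) : ℤ) ∣ (n : ℤ)).trans hab
        have k7 : ((Nat.gcd a n : ℕ) : ℤ) ∣ (a : ℤ) := by exact_mod_cast k1
        have k8 : ((Nat.gcd a n : ℕ) : ℤ) ∣ (m : ℤ) := by exact_mod_cast k4
        have k9 : (b : ℤ) = (a + b - m) - a + m := by ring
        rw [k9]
        exact dvd_add (dvd_sub k6 k7) k8
      exact_mod_cast k5
    obtain ⟨c, c', hc, hca⟩ := inv30 hn hcopr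
    have hm0 : 1 ≤ m := by omega
    have hcodd : ∃ s : ℤ, (c : ℤ) = 2 * s + 1 := by
      obtain ⟨t, ht⟩ := hca
      have hnm : (n : ℤ) = 2 * m := by exact_mod_cast hm
      rcases Int.even_or_odd (c : ℤ) with ⟨s, hs⟩ | ⟨s, hs⟩
      · exfalso
        rw [hs, hnm] at ht
        have : 2 * (s * a - m * t) = 1 := by linear_combination ht
        omega
      · exact ⟨s, hs⟩
    obtain ⟨s, hs⟩ := hcodd
    obtain ⟨t, ht⟩ := hca
    obtain ⟨r, hr⟩ := hab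
    have hnm : (n : ℤ) = 2 * m := by exact_mod_cast hm
    obtain ⟨w', k1, k2, k3⟩ := gen30 hn x y w _ _ φ hC hw0 hF' hG' hF0' hG0'
      (frob_val φ hC.frx hC.fry hf') (frob_val φ hC.frx hC.fry hg') a b hw' c c' hc 1
      ((m : ℤ) - 1) ⟨t, by linear_combination ht⟩ ⟨c * r + s - t, by
        have e1 : (n : ℤ) * s = (c - 1) * m := by rw [hnm, hs]; ring
        linear_combination c * hr - ht - e1⟩
    refine ⟨w', k1, k2, Or.inr (Or.inr (Or.inr (Or.inr ⟨m, f', g', hm, hdf, hdg, hG0', ?_⟩)))⟩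
    rw [k3, zpow_one, show ((m : ℤ) - 1) = ((m - 1 : ℕ) : ℤ) by push_cast [Nat.cast_sub hm0]; ring,
      zpow_natCast]
  have hcases : d2 = 0 ∨ d2 = 1 ∨ (d2 = 2 ∧ d1 = 3) ∨ (d2 = 2 ∧ d1 = 2) := by omega
  rcases hcases with rfl | rfl | ⟨rfl, rfl⟩ | ⟨rfl, rfl⟩
  · -- `d2 = 0`
    have hgC := MvPolynomial.totalDegree_eq_zero_iff_eq_C.mp (Nat.le_zero.mp h2)
    have hcopr : Nat.Coprime a1 n := by
      rw [Nat.coprime_iff_gcd_eq_one]
      have k1 : Nat.gcd a1 n ∣ a1 := Nat.gcd_dvd_left _ _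
      have k2 : Nat.gcd a1 n ∣ n := Nat.gcd_dvd_right _ _
      have k3 : 0 < Nat.gcd a1 n := Nat.gcd_pos_of_pos_right _ hn0
      obtain ⟨δ, hδ⟩ := IsAlgClosed.exists_pow_nat_eq ((MvPolynomial.coeff 0 g) ^ a2) k3
      obtain ⟨b1, hb1⟩ := k1
      refine coprime_of hn0 x y w hC.gen hC.deg k2 (val f x y ^ b1 * algebraMap Ω K δ)
        (mul_mem (pow_mem hF _) ((adjoin Ω {x, y}).algebraMap_mem δ)) hw0 ?_
      have k4 : val g x y = algebraMap Ω K (MvPolynomial.coeff 0 g) := by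
        conv_lhs => rw [hgC]
        exact MvPolynomial.aeval_C _ _
      rw [hw, mul_pow, ← map_pow, hδ, k4, map_pow, ← pow_mul]
      congr 2
      rw [mul_comm]
      exact hb1
    obtain ⟨c, c', hc, hca⟩ := inv30 hn hcopr
    obtain ⟨w', k1, k2, k3⟩ := hgen c c' hc 1 ((c * a2 : ℕ) : ℤ) hca ⟨0, by push_cast; ring⟩
    have hnd : n ∣ d1 := by
      rw [mul_zero, add_zero] at ha
      exact (Nat.Coprime.dvd_of_dvd_mul_left hcopr.symm ha)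
    rw [zpow_one, zpow_natCast, ← val_pow30, ← val_mul30] at k3
    refine ⟨w', k1, k2, ?_⟩
    by_cases h5 : d1 = 5
    · subst h5
      have hn5 : n = 5 := by
        rcases (Nat.dvd_prime Nat.prime_five).mp hnd with h | h
        · omega
        · exact h
      exact Or.inr (Or.inr (Or.inl ⟨hn5, f * g ^ (c * a2), deg_mul30 f g h1 h2 (by omega), k3⟩))
    · refine Or.inl ⟨f * g ^ (c * a2), 1, deg_mul30 f g h1 h2 (by omega), ?_,
        over_one30 (pow_ne_zero _ (Fact.out : p.Prime).ne_zero), ?_, ?_⟩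
      · rw [MvPolynomial.totalDegree_one]; omega
      · rw [val_one30]; exact one_ne_zero
      · rw [val_one30, one_pow, mul_one, k3]
  · -- `d2 = 1`
    obtain ⟨w', k1, k2, k3⟩ := hcop d1 1 (Nat.coprime_one_right _) ha
    refine ⟨w', k1, k2, Or.inl ⟨f * g ^ (4 - d1), g, deg_mul30 f g h1 h2 (by omega), h2, hg, hG0,
      ?_⟩⟩
    rw [val_mul30, val_pow30]
    have k4 : val g x y ^ 4 = val g x y ^ d1 * val g x y ^ (4 - d1) := by
      rw [← pow_add]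
      congr 1
      omega
    rw [k4, ← mul_assoc, k3, pow_one]
  · -- `d1 = 3`, `d2 = 2`
    obtain ⟨w', k1, k2, k3⟩ := hcop 3 2 (by norm_num) ha
    exact ⟨w', k1, k2, Or.inr (Or.inl ⟨f, g, h1, h2, hG0, k3⟩)⟩
  · -- `d1 = d2 = 2`
    by_cases hdiv : n ∣ a1 * 1 + a2 * 1
    · obtain ⟨w', k1, k2, k3⟩ := hcop 1 1 (by norm_num) hdiv
      rw [pow_one, pow_one] at k3
      exact ⟨w', k1, k2, Or.inr (Or.inr (Or.inr (Or.inl ⟨f, g, h1, h2, hG0, k3⟩)))⟩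
    · rw [mul_one, mul_one] at hdiv
      obtain ⟨t, ht⟩ := ha
      -- `t` is odd and `n` is even
      have ht2 : ¬ 2 ∣ t := by
        rintro ⟨s, hs⟩
        apply hdiv
        refine ⟨s, ?_⟩
        subst hs
        have : 2 * (a1 + a2) = 2 * (n * s) := by linarith
        omega
      have hn2 : 2 ∣ n := by
        have k1 : 2 ∣ n * t := ⟨a1 + a2, by rw [← ht]; ring⟩
        rcases (Nat.Prime.dvd_mul Nat.prime_two).mp k1 with h | h
        · exact h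
        · exact absurd h ht2
      obtain ⟨m, hm⟩ := hn2
      have hsum : a1 + a2 = m * t := by
        have : 2 * (a1 + a2) = 2 * (m * t) := by rw [hm] at ht; linarith
        omega
      have hodd : ∃ s, t = 2 * s + 1 := ⟨t / 2, by omega⟩
      obtain ⟨s, hs⟩ := hodd
      have hz : (n : ℤ) ∣ a1 + a2 - m := by
        refine ⟨s, ?_⟩
        have e1 : (a1 : ℤ) + a2 = m * t := by exact_mod_cast hsum
        have e2 : (n : ℤ) = 2 * m := by exact_mod_cast hm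
        have e3 : (t : ℤ) = 2 * s + 1 := by exact_mod_cast hs
        rw [e1, e2, e3]
        ring
      by_cases ha1 : 2 ∣ a1
      · have ha2 : ¬ 2 ∣ a2 := by
          intro h
          have := hgcd 2 ⟨m, hm⟩ ha1 h
          omega
        refine hE g f hg hf h2 h1 hG0 hF0 a2 a1 m hm ?_ ha2 (by rw [hw, mul_comm])
        rwa [add_comm (a2 : ℤ)]
      · exact hE f g hf hg h1 h2 hF0 hG0 a1 a2 m hm hz ha1 hw

/-- both values are nonzero -/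
private theorem redB30 {p e : ℕ} [Fact p.Prime] {Ω K : Type} [Field Ω] [IsAlgClosed Ω] [CharP Ω p]
    [Field K] [Algebra Ω K] {n : ℕ} (hn : 1 < n) (x y w : K) (φ : K →ₐ[Ω] K)
    (hC : Cover (p ^ e) n x y w φ) (hw0 : w ≠ 0) (f g : MvPolynomial (Fin 2) Ω)
    (hf : Over (p ^ e) f) (hg : Over (p ^ e) g) (d1 d2 a1 a2 : ℕ) (h1 : f.totalDegree ≤ d1)
    (h2 : g.totalDegree ≤ d2) (hd : d1 + d2 ≤ 5) (ha : n ∣ a1 * d1 + a2 * d2)
    (hw : w ^ n = val f x y ^ a1 * val g x y ^ a2) (hF0 : val f x y ≠ 0) (hG0 : val g x y ≠ 0) :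
    ∃ w' : K, w' ≠ 0 ∧ Cover (p ^ e) n x y w' φ ∧ NormalForm (Ω := Ω) (p ^ e) n x y w' := by
  rcases le_total d2 d1 with hle | hle
  · exact redA30 hn x y w φ hC hw0 f g hf hg d1 d2 a1 a2 h1 h2 hd ha hw hF0 hG0 hle
  · exact redA30 hn x y w φ hC hw0 g f hg hf d2 d1 a2 a1 h2 h1 (by omega)
      (by rwa [add_comm]) (by rw [hw, mul_comm]) hG0 hF0 hle

theorem red {p e : ℕ} [Fact p.Prime] {Ω K : Type} [Field Ω] [IsAlgClosed Ω] [CharP Ω p] [Field K]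
    [Algebra Ω K] {n : ℕ} (hn : 1 < n) (x y w : K) (φ : K →ₐ[Ω] K)
    (hC : Cover (p ^ e) n x y w φ) (hw0 : w ≠ 0) (f g : MvPolynomial (Fin 2) Ω)
    (hf : Over (p ^ e) f) (hg : Over (p ^ e) g) (d1 d2 a1 a2 : ℕ) (h1 : f.totalDegree ≤ d1)
    (h2 : g.totalDegree ≤ d2) (hd : d1 + d2 ≤ 5) (ha : n ∣ a1 * d1 + a2 * d2)
    (hw : w ^ n = val f x y ^ a1 * val g x y ^ a2) :
    ∃ w' : K, w' ≠ 0 ∧ Cover (p ^ e) n x y w' φ ∧ NormalForm (Ω := Ω) (p ^ e) n x y w' := by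
  have hq : p ^ e ≠ 0 := pow_ne_zero _ (Fact.out : p.Prime).ne_zero
  have hn0 : 0 < n := by omega
  -- `f = 1` if `a1 = 0`
  obtain ⟨f', hf', h1', hF', hw'⟩ : ∃ f' : MvPolynomial (Fin 2) Ω, Over (p ^ e) f' ∧
      f'.totalDegree ≤ d1 ∧ val f' x y ≠ 0 ∧ w ^ n = val f' x y ^ a1 * val g x y ^ a2 := by
    by_cases h : a1 = 0
    · refine ⟨1, over_one30 hq, by rw [MvPolynomial.totalDegree_one]; omega, ?_, ?_⟩
      · rw [val_one30]; exact one_ne_zero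
      · rw [hw, h, pow_zero, pow_zero]
    · refine ⟨f, hf, h1, ?_, hw⟩
      intro h0
      rw [h0, zero_pow h, zero_mul] at hw
      exact pow_ne_zero _ hw0 hw
  obtain ⟨g', hg', h2', hG', hw''⟩ : ∃ g' : MvPolynomial (Fin 2) Ω, Over (p ^ e) g' ∧
      g'.totalDegree ≤ d2 ∧ val g' x y ≠ 0 ∧ w ^ n = val f' x y ^ a1 * val g' x y ^ a2 := by
    by_cases h : a2 = 0
    · refine ⟨1, over_one30 hq, by rw [MvPolynomial.totalDegree_one]; omega, ?_, ?_⟩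
      · rw [val_one30]; exact one_ne_zero
      · rw [hw', h, pow_zero, pow_zero]
    · refine ⟨g, hg, h2, ?_, hw'⟩
      intro h0
      rw [h0, zero_pow h, mul_zero] at hw'
      exact pow_ne_zero _ hw0 hw'
  exact redB30 hn x y w φ hC hw0 f' g' hf' hg' d1 d2 a1 a2 h1' h2' hd ha hw'' hF' hG'

end Pool.Agent.Helper75.TC
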