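import Pool.Agent.Helper75.TC.Red1

/-! Block TC-9. Three conics: reduction to the exponent one. -/

set_option autoImplicit false

namespace Pool.Agent.Helper75.TC

open IntermediateField Pool.Agent.Helper75.QC

/-- the normal form -/
def NetForm {Ω K : Type} [Field Ω] [Field K] [Algebra Ω K] (n : ℕ) (x y w : K) : Prop :=
  ∃ (f g h : MvPolynomial (Fin 2) Ω) (b c : ℕ), f.totalDegree ≤ 2 ∧ g.totalDegree ≤ 2 ∧
    h.totalDegree ≤ 2 ∧ n ∣ 1 + b + c ∧ val g x y ≠ 0 ∧ val h x y ≠ 0 ∧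
    w ^ n = val f x y * val g x y ^ b * val h x y ^ c

theorem over_one {Ω : Type} [Field Ω] {q : ℕ} (hq : 0 < q) : Over q (1 : MvPolynomial (Fin 2) Ω) := by
  intro d
  rw [MvPolynomial.coeff_one]
  split_ifs
  · exact one_pow q
  · exact zero_pow hq.ne'

theorem val_one {Ω K : Type} [Field Ω] [Field K] [Algebra Ω K] (x y : K) :
    val (1 : MvPolynomial (Fin 2) Ω) x y = 1 := by
  unfold val
  exact map_one _

/-- replace a polynomial with exponent zero by one -/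
theorem repl {Ω K : Type} [Field Ω] [Field K] [Algebra Ω K] {q : ℕ} (hq : 0 < q)
    (f : MvPolynomial (Fin 2) Ω) (hf : Over q f) (x y : K) (a : ℕ) (h : val f x y ^ a ≠ 0) :
    ∃ f' : MvPolynomial (Fin 2) Ω, Over q f' ∧ f'.totalDegree ≤ f.totalDegree ∧
      val f' x y ≠ 0 ∧ val f' x y ^ a = val f x y ^ a := by
  rcases Nat.eq_zero_or_pos a with ha | ha
  · refine ⟨1, over_one hq, by rw [MvPolynomial.totalDegree_one]; exact Nat.zero_le _, ?_, ?_⟩
    · rw [val_one]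
      exact one_ne_zero
    · rw [ha, pow_zero, pow_zero]
  · refine ⟨f, hf, le_rfl, ?_, rfl⟩
    intro h0
    exact h (by rw [h0, zero_pow ha.ne'])

theorem red3_aux {p e : ℕ} [Fact p.Prime] {Ω K : Type} [Field Ω] [CharP Ω p] [Field K]
    [Algebra Ω K] {n : ℕ} (hn : 1 < n) (x y w : K) (φ : K →ₐ[Ω] K)
    (hC : Cover (p ^ e) n x y w φ) (hw0 : w ≠ 0) (f g h : MvPolynomial (Fin 2) Ω)
    (hf : Over (p ^ e) f) (hg : Over (p ^ e) g) (hh : Over (p ^ e) h) (a b c : ℕ)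
    (h1 : f.totalDegree ≤ 2) (h2 : g.totalDegree ≤ 2) (h3 : h.totalDegree ≤ 2)
    (hs : n ∣ a + b + c) (hco : Nat.Coprime a n)
    (hw : w ^ n = val f x y ^ a * val g x y ^ b * val h x y ^ c) :
    ∃ w' : K, w' ≠ 0 ∧ Cover (p ^ e) n x y w' φ ∧ NetForm (Ω := Ω) n x y w' := by
  have hq : 0 < p ^ e := pow_pos (Fact.out : p.Prime).pos e
  have hne : val f x y ^ a * val g x y ^ b * val h x y ^ c ≠ 0 := by
    rw [← hw]
    exact pow_ne_zero _ hw0
  obtain ⟨f', hf', hf1, hf0, hfa⟩ := repl hq f hf x y a (by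
    intro h0
    rw [h0, zero_mul, zero_mul] at hne
    exact hne rfl)
  obtain ⟨g', hg', hg1, hg0, hga⟩ := repl hq g hg x y b (by
    intro h0
    rw [h0, mul_zero, zero_mul] at hne
    exact hne rfl)
  obtain ⟨h', hh', hh1, hh0, hha⟩ := repl hq h hh x y c (by
    intro h0
    rw [h0, mul_zero] at hne
    exact hne rfl)
  rw [← hfa, ← hga, ← hha] at hw
  have hx : x ∈ adjoin Ω {x, y} := subset_adjoin _ _ (by simp)
  have hy : y ∈ adjoin Ω {x, y} := subset_adjoin _ _ (by simp)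
  have hFm : val f' x y ∈ adjoin Ω {x, y} := val_mem f' _ hx hy
  have hwF : w ^ n ∈ adjoin Ω {x, y} := by
    rw [hw]
    exact mul_mem (mul_mem (pow_mem hFm _) (pow_mem (val_mem g' _ hx hy) _))
      (pow_mem (val_mem h' _ hx hy) _)
  -- the inverse of `a` modulo `n`
  obtain ⟨k, hk⟩ := Nat.exists_mul_mod_eq_one_of_coprime hco hn
  have hk1 : a * k ≡ 1 [MOD n] := by
    rw [Nat.ModEq, hk.2, Nat.mod_eq_of_lt hn]
  have hk2 : k * a ≡ 1 [MOD n] := by
    rw [mul_comm]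
    exact hk1
  obtain ⟨t, ht⟩ : ∃ t : ℕ, a * k = 1 + n * t := by
    have h4 : 1 ≤ a * k := by
      rcases Nat.eq_zero_or_pos (a * k) with h5 | h5
      · rw [h5, Nat.zero_mod] at hk
        exact absurd hk.2 zero_ne_one
      · exact h5
    have h6 : n ∣ a * k - 1 := (Nat.modEq_iff_dvd' h4).1 hk1.symm
    obtain ⟨t, ht⟩ := h6
    exact ⟨t, by omega⟩
  have hA0 : (val f' x y ^ t)⁻¹ ≠ 0 := inv_ne_zero (pow_ne_zero _ hf0)
  refine ⟨w ^ k * (val f' x y ^ t)⁻¹, mul_ne_zero (pow_ne_zero _ hw0) hA0,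
    change hn hk2 x y w _ φ hC hwF hw0 (inv_mem (pow_mem hFm _)) hA0 ?_, f', g', h', b * k,
    c * k, hf1.trans h1, hg1.trans h2, hh1.trans h3, ?_, hg0, hh0, ?_⟩
  · rw [map_inv₀, map_pow, frob_val φ hC.frx hC.fry hf', ← pow_mul, inv_pow, ← pow_mul,
      mul_comm t]
  · have h4 : 1 + b * k + c * k + n * t = (a + b + c) * k := by
      rw [add_mul, add_mul, ht]
      ring
    have h5 : n ∣ 1 + b * k + c * k + n * t := by
      rw [h4]
      exact Dvd.dvd.mul_right hs k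
    exact (Nat.dvd_add_left (Dvd.intro t rfl)).1 h5
  · have h4 : (w ^ k) ^ n = val f' x y * (val f' x y ^ t) ^ n * val g' x y ^ (b * k) *
        val h' x y ^ (c * k) := by
      rw [← pow_mul, mul_comm k, pow_mul, hw, mul_pow, mul_pow, ← pow_mul, ht, ← pow_mul, ← pow_mul,
        ← pow_mul, pow_add, pow_one, mul_comm n t]
    rw [mul_pow, h4, inv_pow]
    have h5 : (val f' x y ^ t) ^ n ≠ 0 := pow_ne_zero _ (pow_ne_zero _ hf0)
    field_simp

theorem red3 {p e : ℕ} [Fact p.Prime] {Ω K : Type} [Field Ω] [CharP Ω p] [Field K]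
    [Algebra Ω K] {n : ℕ} (hn : 1 < n) (x y w : K) (φ : K →ₐ[Ω] K)
    (hC : Cover (p ^ e) n x y w φ) (hw0 : w ≠ 0) (f g h : MvPolynomial (Fin 2) Ω)
    (hf : Over (p ^ e) f) (hg : Over (p ^ e) g) (hh : Over (p ^ e) h) (a b c : ℕ)
    (h1 : f.totalDegree ≤ 2) (h2 : g.totalDegree ≤ 2) (h3 : h.totalDegree ≤ 2)
    (hs : n ∣ a + b + c) (hco : Nat.Coprime a n ∨ Nat.Coprime b n ∨ Nat.Coprime c n)
    (hw : w ^ n = val f x y ^ a * val g x y ^ b * val h x y ^ c) :
    ∃ w' : K, w' ≠ 0 ∧ Cover (p ^ e) n x y w' φ ∧ NetForm (Ω := Ω) n x y w' := by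
  rcases hco with hco | hco | hco
  · exact red3_aux hn x y w φ hC hw0 f g h hf hg hh a b c h1 h2 h3 hs hco hw
  · exact red3_aux hn x y w φ hC hw0 g f h hg hf hh b a c h2 h1 h3
      (by rw [add_comm b a]; exact hs) hco (by rw [hw, mul_comm (val f x y ^ a)])
  · exact red3_aux hn x y w φ hC hw0 h g f hh hg hf c b a h3 h2 h1
      (by rw [add_comm c b, add_comm (b + c) a, ← add_assoc]; exact hs) hco
      (by rw [hw]; ring)

end Pool.Agent.Helper75.TC
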