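import Pool.Agent.Helper75.TC.FormA
import Pool.Agent.Helper75.TC.FormB
import Pool.Agent.Helper75.TC.FormC
import Pool.Agent.Helper75.TC.FormE
import Pool.Agent.Helper75.TC.FormN
import Pool.Agent.Helper75.TC.Red
import Pool.Agent.Helper75.TC.Red3

/-! Project TC: the result, assembled from the blocks. -/

set_option autoImplicit false

namespace Pool.Agent.Helper75.TC

open IntermediateField Pool.Agent.Helper75.QC

/-- `w ^ n = f ^ a * g ^ b * h ^ c` is a cyclic cover of the plane branched along two curves of total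
degree at most five, or along three conics. -/
def Branch {Ω : Type} [Field Ω] (n : ℕ) (f g h : MvPolynomial (Fin 2) Ω) (a b c : ℕ) : Prop :=
  (h = 1 ∧ ∃ d d' : ℕ, f.totalDegree ≤ d ∧ g.totalDegree ≤ d' ∧ d + d' ≤ 5 ∧
    n ∣ a * d + b * d') ∨
  (f.totalDegree ≤ 2 ∧ g.totalDegree ≤ 2 ∧ h.totalDegree ≤ 2 ∧ n ∣ a + b + c ∧
    (Nat.Coprime a n ∨ Nat.Coprime b n ∨ Nat.Coprime c n))

theorem Branch.of_dvd {Ω : Type} [Field Ω] {n m : ℕ} {f g h : MvPolynomial (Fin 2) Ω}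
    {a b c : ℕ} (H : Branch n f g h a b c) (hm : m ∣ n) : Branch m f g h a b c := by
  rcases H with ⟨h1, d, d', h2, h3, h4, h5⟩ | ⟨h1, h2, h3, h4, h5⟩
  · exact Or.inl ⟨h1, d, d', h2, h3, h4, hm.trans h5⟩
  · refine Or.inr ⟨h1, h2, h3, hm.trans h4, ?_⟩
    rcases h5 with h5 | h5 | h5
    · exact Or.inl (h5.coprime_dvd_right hm)
    · exact Or.inr (Or.inl (h5.coprime_dvd_right hm))
    · exact Or.inr (Or.inr (h5.coprime_dvd_right hm))

theorem semisimple_of_form {p : ℕ} [Fact p.Prime] {Ω L : Type} [Field Ω] [CharP Ω p]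
    [IsAlgClosed Ω] [Field L] [CharZero L] [IsAlgClosed L] (T : Theory p Ω L) {n e : ℕ}
    (hn : 0 < n) (hn' : (n : Ω) ≠ 0) {K : Type} [Field K] [Algebra Ω K] (x y w : K)
    (φ : K →ₐ[Ω] K) (hC : Cover (p ^ e) n x y w φ) (hw0 : w ≠ 0)
    (h : NormalForm (Ω := Ω) (p ^ e) n x y w) : Module.End.IsSemisimple (T.map 2 φ) := by
  rcases h with ⟨f, ℓ, hf, hℓ, hq, hℓ0, hw⟩ | ⟨f, g, hf, hg, hg0, hw⟩ | ⟨h5, f, hf, hw⟩ |
    ⟨f, g, hf, hg, hg0, hw⟩ | ⟨m, f, g, hm, hf, hg, hg0, hw⟩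
  · exact form_A T f ℓ hf hℓ hn hq hn' x y w φ hC hℓ0 hw
  · exact form_B T f g hf hg hn hn' x y w φ hC hw0 hg0 hw
  · subst h5
    exact form_C T f hf hn' x y w φ hC hw0 hw
  · exact semisimple_of_uniruled T (uniruled_of_gen hC.gen
      (uni_pencil f g hf hg hn x y w hg0 hw)) φ
  · subst hm
    exact form_E T f g hf hg (by omega) hn' x y w φ hC hw0 hg0 hw

theorem tame2 {p : ℕ} [Fact p.Prime] {Ω L : Type} [Field Ω] [CharP Ω p]
    [IsAlgClosed Ω] [Field L] [CharZero L] [IsAlgClosed L] (T : Theory p Ω L) {n e : ℕ}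
    (hn : 0 < n) (hn' : (n : Ω) ≠ 0) {K : Type} [Field K] [Algebra Ω K] (x y w : K)
    (φ : K →ₐ[Ω] K) (hC : Cover (p ^ e) n x y w φ) (f g h : MvPolynomial (Fin 2) Ω)
    (hf : Over (p ^ e) f) (hg : Over (p ^ e) g) (hh : Over (p ^ e) h) (a b c : ℕ)
    (H : Branch n f g h a b c)
    (hw : w ^ n = val f x y ^ a * val g x y ^ b * val h x y ^ c) :
    Module.End.IsSemisimple (T.map 2 φ) := by
  have hwF : w ^ n ∈ adjoin Ω {x, y} := by
    have hx : x ∈ adjoin Ω {x, y} := subset_adjoin _ _ (by simp)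
    have hy : y ∈ adjoin Ω {x, y} := subset_adjoin _ _ (by simp)
    rw [hw]
    exact mul_mem (mul_mem (pow_mem (val_mem f _ hx hy) _) (pow_mem (val_mem g _ hx hy) _))
      (pow_mem (val_mem h _ hx hy) _)
  by_cases hw0 : w = 0
  · refine semisimple_of_uniruled T (uniruled_of_gen hC.gen ?_) φ
    refine uni_plane75 x y w ?_
    rw [hw0]
    exact zero_mem _
  rcases Nat.lt_or_ge 1 n with h1n | h1n
  · rcases H with ⟨h1, d, d', h2, h3, h4, h5⟩ | ⟨h1, h2, h3, h4, h5⟩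
    · rw [h1, val_one, one_pow, mul_one] at hw
      obtain ⟨w', hw', hC', hN⟩ := red h1n x y w φ hC hw0 f g hf hg d d' a b h2 h3 h4 h5 hw
      exact semisimple_of_form T hn hn' x y w' φ hC' hw' hN
    · obtain ⟨w', hw', hC', f', g', h', b', c', e1, e2, e3, e4, e5, e6, e7⟩ :=
        red3 h1n x y w φ hC hw0 f g h hf hg hh a b c h1 h2 h3 h4 h5 hw
      exact form_N T f' g' h' e1 e2 e3 hn hn' e4 x y w' φ hC' hw' e5 e6 e7
  · have h1' : n = 1 := by omega
    refine semisimple_of_uniruled T (uniruled_of_gen hC.gen ?_) φ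
    refine uni_plane75 x y w ?_
    rw [h1', pow_one] at hwF
    exact hwF

/-- every cyclic cover of the plane branched along two curves of total degree at most five or along
three conics -/
theorem main {p : ℕ} [Fact p.Prime] {Ω L : Type} [Field Ω] [CharP Ω p] [IsAlgClosed Ω] [Field L]
    [CharZero L] [IsAlgClosed L] (T : Theory p Ω L) {n e : ℕ} (hn : 0 < n) (he : 0 < e)
    (f g h : MvPolynomial (Fin 2) Ω) (hf : Over (p ^ e) f) (hg : Over (p ^ e) g)
    (hh : Over (p ^ e) h) (a b c : ℕ) (H : Branch n f g h a b c) {K : Type} [Field K]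
    [Algebra Ω K] (x y w : K) (φ : K →ₐ[Ω] K) (hC : Cover (p ^ e) n x y w φ)
    (hw : w ^ n = val f x y ^ a * val g x y ^ b * val h x y ^ c) {V : Type} [AddCommGroup V]
    [Module L V] (Fr : Module.End L V) (r : V →ₗ[L] T.H 2 K) (hV : IsH2 T (p ^ e) φ Fr r) :
    Fr.IsSemisimple := by
  have h0 : Module.End.IsSemisimple (T.map 2 φ) := by
    have hwF : w ^ n ∈ adjoin Ω {x, y} := by
      have hx : x ∈ adjoin Ω {x, y} := subset_adjoin _ _ (by simp)
      have hy : y ∈ adjoin Ω {x, y} := subset_adjoin _ _ (by simp)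
      rw [hw]
      exact mul_mem (mul_mem (pow_mem (val_mem f _ hx hy) _) (pow_mem (val_mem g _ hx hy) _))
        (pow_mem (val_mem h _ hx hy) _)
    refine insep_gen T hn he x y w hC.gen hwF hC.deg φ ⟨hC.frx, hC.fry, hC.frw⟩ ?_
    intro m n' hnn hn0 hcast K1 x1 y1 w1 hx hy hw1 htop hdeg1 φ1 hφ1
    refine tame2 T hn0 hcast x1 y1 w1 φ1 ⟨htop, hdeg1, hφ1.1, hφ1.2.1, hφ1.2.2⟩ f g h hf hg hh
      a b c (H.of_dvd (Dvd.intro_left (p ^ m) hnn.symm)) ?_
    apply Subtype.ext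
    have h3 : K1.val (val f x1 y1 ^ a * val g x1 y1 ^ b * val h x1 y1 ^ c) =
        val f x y ^ a * val g x y ^ b * val h x y ^ c := by
      have hx' : K1.val x1 = x := hx
      have hy' : K1.val y1 = y := hy
      rw [map_mul, map_mul, map_pow, map_pow, map_pow, map_val, map_val, map_val, hx', hy']
    show (w1 : K) ^ n' = K1.val (val f x1 y1 ^ a * val g x1 y1 ^ b * val h x1 y1 ^ c)
    rw [h3, ← hw, hw1, hnn, pow_mul]
  obtain ⟨m, hm, hk⟩ := hV.classes
  refine semisimple_of_parts Fr (T.map 2 φ) r hV.comm h0 ((p ^ e : ℕ) : L) ?_ hm hk hV.compl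
  exact_mod_cast pow_ne_zero _ (Fact.out : p.Prime).ne_zero

end Pool.Agent.Helper75.TC
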