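import Pool.Agent.Helper75.TC.Data

/-! Block TC-5. Two tools for the reduction to normal forms.

`coprime_of`: `(w^(n/d) / h)^d = 1`, so `w^(n/d) = ζ h` with `ζ ∈ Ω` (`Ω` is algebraically closed, so
it contains the `d`-th roots of unity of `K`: a root of `X^d - 1` is integral over `Ω`),
`w^(n/d) ∈ Ω(x, y)`, so `n = [K : Ω(x, y)] ≤ n / d` (compare `deg_le34` in Helper75/QC/Insep).
`change`: `c c' = 1 + n t`, `(w^c A)^(c')` is `w` times a nonzero element of `Ω(x, y)`, so the field
generated by `x, y, w^c A` contains `w`. -/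

set_option autoImplicit false

namespace Pool.Agent.Helper75.TC

open IntermediateField Pool.Agent.Helper75.QC

private theorem deg_leB33 {Ω M : Type} [Field Ω] [Field M] [Algebra Ω M] (F : IntermediateField Ω M)
    (z : M) {d : ℕ} (hd : 0 < d) (hz : z ^ d ∈ F)
    (htop : ∀ N : IntermediateField Ω M, F ≤ N → z ∈ N → N = ⊤) : Module.finrank F M ≤ d := by
  have hint : IsIntegral F z := by
    refine IsIntegral.of_pow hd ?_
    exact isIntegral_algebraMap (x := (⟨z ^ d, hz⟩ : F))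
  have h1 : IntermediateField.adjoin F {z} = ⊤ := by
    apply IntermediateField.restrictScalars_injective Ω
    rw [restrictScalars_top]
    refine htop _ ?_ ?_
    · intro a ha
      exact (adjoin F {z}).algebraMap_mem ⟨a, ha⟩
    · exact mem_adjoin_simple_self F z
  have h0 : Module.finrank F (IntermediateField.adjoin F {z}) = Module.finrank F M := by
    rw [h1, IntermediateField.finrank_top']
  rw [← h0, adjoin.finrank hint]
  have h2 : minpoly F z ∣ Polynomial.X ^ d - Polynomial.C (⟨z ^ d, hz⟩ : F) := by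
    refine minpoly.dvd _ _ ?_
    rw [map_sub, map_pow, Polynomial.aeval_X, Polynomial.aeval_C]
    exact sub_self _
  have h3 := Polynomial.natDegree_le_of_dvd h2 (Polynomial.X_pow_sub_C_ne_zero hd _)
  rwa [Polynomial.natDegree_X_pow_sub_C] at h3

private theorem top_of33 {Ω K : Type} [Field Ω] [Field K] [Algebra Ω K] {x y w : K}
    (hK : adjoin Ω {x, y, w} = ⊤) (N : IntermediateField Ω K) (hN : adjoin Ω {x, y} ≤ N)
    (hw : w ∈ N) : N = ⊤ := by
  rw [eq_top_iff, ← hK, adjoin_le_iff]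
  intro s hs
  simp only [Set.mem_insert_iff, Set.mem_singleton_iff] at hs
  rcases hs with rfl | rfl | rfl
  · exact hN (subset_adjoin _ _ (by simp))
  · exact hN (subset_adjoin _ _ (by simp))
  · exact hw

theorem coprime_of {Ω K : Type} [Field Ω] [IsAlgClosed Ω] [Field K] [Algebra Ω K] {n d : ℕ}
    (hn : 0 < n) (x y w : K) (hK : adjoin Ω {x, y, w} = ⊤)
    (hdeg : Module.finrank (adjoin Ω {x, y}) K = n) (hd : d ∣ n) (h : K)
    (hh : h ∈ adjoin Ω {x, y}) (hw0 : w ≠ 0) (hw : w ^ n = h ^ d) : d = 1 := by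
  obtain ⟨k, rfl⟩ := hd
  have hd0 : 0 < d := Nat.pos_of_mul_pos_right hn
  have hk0 : 0 < k := Nat.pos_of_mul_pos_left hn
  have hh0 : h ≠ 0 := by
    rintro rfl
    rw [zero_pow hd0.ne'] at hw
    exact pow_ne_zero _ hw0 hw
  have hζ : (w ^ k / h) ^ d = 1 := by
    rw [div_pow, ← pow_mul, mul_comm k d, hw, div_self (pow_ne_zero _ hh0)]
  have hint : IsIntegral Ω (w ^ k / h) := IsIntegral.of_pow hd0 (by rw [hζ]; exact isIntegral_one)
  obtain ⟨ζ, hζ'⟩ := minpoly.mem_range_of_degree_eq_one Ω (w ^ k / h)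
    (IsAlgClosed.degree_eq_one_of_irreducible Ω (minpoly.irreducible hint))
  have hwk : w ^ k ∈ adjoin Ω {x, y} := by
    have h1 : w ^ k = algebraMap Ω K ζ * h := by
      rw [hζ', div_mul_cancel₀ _ hh0]
    rw [h1]
    exact mul_mem ((adjoin Ω {x, y}).algebraMap_mem ζ) hh
  have h2 := deg_leB33 (adjoin Ω {x, y}) w hk0 hwk (fun N hN hw' => top_of33 hK N hN hw')
  rw [hdeg] at h2
  have h3 : d ≤ 1 := by
    by_contra hc
    push Not at hc
    nlinarith
  omega

theorem change {Ω K : Type} [Field Ω] [Field K] [Algebra Ω K] {q n c c' : ℕ} (hn : 1 < n)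
    (hc : c * c' ≡ 1 [MOD n]) (x y w A : K) (φ : K →ₐ[Ω] K) (hC : Cover q n x y w φ)
    (hwn : w ^ n ∈ adjoin Ω {x, y}) (hw0 : w ≠ 0) (hA : A ∈ adjoin Ω {x, y}) (hA0 : A ≠ 0)
    (hφ : φ A = A ^ q) : Cover q n x y (w ^ c * A) φ := by
  refine ⟨?_, hC.deg, hC.frx, hC.fry, ?_⟩
  · have hF : adjoin Ω {x, y} ≤ adjoin Ω {x, y, w ^ c * A} := by
      rw [adjoin_le_iff]
      intro s hs
      apply subset_adjoin
      simp only [Set.mem_insert_iff, Set.mem_singleton_iff] at hs ⊢
      rcases hs with rfl | rfl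
      · left; rfl
      · right; left; rfl
    apply top_of33 hC.gen _ hF
    have h1 : w ^ c * A ∈ adjoin Ω {x, y, w ^ c * A} := subset_adjoin _ _ (by simp)
    have h2 : w ^ c ∈ adjoin Ω {x, y, w ^ c * A} := by
      have h3 := div_mem h1 (hF hA)
      rwa [mul_div_cancel_right₀ _ hA0] at h3
    have h3 : w ^ (c * c') ∈ adjoin Ω {x, y, w ^ c * A} := by
      rw [pow_mul]
      exact pow_mem h2 c'
    have h4 : c * c' = n * (c * c' / n) + 1 := by
      have h5 : c * c' % n = 1 := by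
        have h6 : c * c' % n = 1 % n := hc
        rwa [Nat.mod_eq_of_lt hn] at h6
      have h7 := Nat.div_add_mod (c * c') n
      rw [h5] at h7
      exact h7.symm
    rw [h4, pow_succ, pow_mul] at h3
    have h5 : (w ^ n) ^ (c * c' / n) ∈ adjoin Ω {x, y, w ^ c * A} := pow_mem (hF hwn) _
    have h6 := div_mem h3 h5
    rwa [mul_div_cancel_left₀ _ (pow_ne_zero _ (pow_ne_zero _ hw0))] at h6
  · rw [map_mul, map_pow, hC.frw, hφ, mul_pow, ← pow_mul, ← pow_mul, mul_comm q c]

end Pool.Agent.Helper75.TC
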